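import Mathlib
set_option autoImplicit false
set_option maxSynthPendingDepth 6
open Topology Filter
namespace H506R3.Lau

abbrev V := Fin 3 → ℝ

noncomputable def g (E : V → ℝ) : V → (V →L[ℝ] V →L[ℝ] ℝ) := fderiv ℝ (fderiv ℝ E)
noncomputable def C (E : V → ℝ) : V → (V →L[ℝ] V →L[ℝ] V →L[ℝ] ℝ) := fderiv ℝ (g E)
noncomputable def Q (E : V → ℝ) : V → (V →L[ℝ] V →L[ℝ] V →L[ℝ] V →L[ℝ] ℝ) := fderiv ℝ (C E)

/-- smooth away from the origin, positively two-homogeneous, with positive definite Hessian -/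
structure Dat (E : V → ℝ) : Prop where
  smooth : ∀ x, x ≠ 0 → ContDiffAt ℝ ((⊤ : ℕ∞) : WithTop ℕ∞) E x
  hom : ∀ (t : ℝ) (x : V), 0 < t → E (t • x) = t^2 * E x
  pos : ∀ x, x ≠ 0 → ∀ v, v ≠ 0 → 0 < g E x v v

variable {E : V → ℝ}

lemma top_add_one : ((⊤ : ℕ∞) : WithTop ℕ∞) + 1 ≤ ((⊤ : ℕ∞) : WithTop ℕ∞) := by
  exact le_refl _

lemma sm_dE (D : Dat E) {x : V} (hx : x ≠ 0) : ContDiffAt ℝ ((⊤ : ℕ∞) : WithTop ℕ∞) (fderiv ℝ E) x :=
  (D.smooth x hx).fderiv_right top_add_one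
lemma sm_g (D : Dat E) {x : V} (hx : x ≠ 0) : ContDiffAt ℝ ((⊤ : ℕ∞) : WithTop ℕ∞) (g E) x :=
  (sm_dE D hx).fderiv_right top_add_one
lemma sm_C (D : Dat E) {x : V} (hx : x ≠ 0) : ContDiffAt ℝ ((⊤ : ℕ∞) : WithTop ℕ∞) (C E) x :=
  (sm_g D hx).fderiv_right top_add_one
lemma sm_Q (D : Dat E) {x : V} (hx : x ≠ 0) : ContDiffAt ℝ ((⊤ : ℕ∞) : WithTop ℕ∞) (Q E) x :=
  (sm_C D hx).fderiv_right top_add_one

lemma top_ne_zero' : ((⊤ : ℕ∞) : WithTop ℕ∞) ≠ 0 := by simp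

lemma hd_dE (D : Dat E) {x : V} (hx : x ≠ 0) : HasFDerivAt (fderiv ℝ E) (g E x) x :=
  ((sm_dE D hx).differentiableAt top_ne_zero').hasFDerivAt
lemma hd_E (D : Dat E) {x : V} (hx : x ≠ 0) : HasFDerivAt E (fderiv ℝ E x) x :=
  ((D.smooth x hx).differentiableAt top_ne_zero').hasFDerivAt
lemma hd_g (D : Dat E) {x : V} (hx : x ≠ 0) : HasFDerivAt (g E) (C E x) x :=
  ((sm_g D hx).differentiableAt top_ne_zero').hasFDerivAt
lemma hd_C (D : Dat E) {x : V} (hx : x ≠ 0) : HasFDerivAt (C E) (Q E x) x :=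
  ((sm_C D hx).differentiableAt top_ne_zero').hasFDerivAt

lemma symmAux {W : Type} [NormedAddCommGroup W] [NormedSpace ℝ W] {f : V → W} {x : V}
    (hf : ContDiffAt ℝ ((⊤ : ℕ∞) : WithTop ℕ∞) f x) (u v : V) :
    fderiv ℝ (fderiv ℝ f) x u v = fderiv ℝ (fderiv ℝ f) x v u := by
  have := hf.isSymmSndFDerivAt (by simp; exact WithTop.coe_le_coe.2 (le_top : (2:ℕ∞) ≤ ⊤))
  exact this u v

lemma g_symm (D : Dat E) {x : V} (hx : x ≠ 0) (u v : V) : g E x u v = g E x v u :=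
  symmAux (D.smooth x hx) u v

lemma C_s12 (D : Dat E) {x : V} (hx : x ≠ 0) (u v w : V) : C E x u v w = C E x v u w := by
  have := symmAux (sm_dE D hx) u v
  exact congrArg (fun L : V →L[ℝ] ℝ => L w) this

lemma ne_ev {x : V} (hx : x ≠ 0) : ∀ᶠ y in 𝓝 x, y ≠ (0:V) := isOpen_ne.mem_nhds hx

lemma C_s23 (D : Dat E) {x : V} (hx : x ≠ 0) (u v w : V) : C E x u v w = C E x u w v := by
  have h1 : HasFDerivAt (fun y => g E y v w) _ x := ((hd_g D hx).clm_apply (hasFDerivAt_const v x)).clm_apply (hasFDerivAt_const w x)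
  have h2 : HasFDerivAt (fun y => g E y w v) _ x := ((hd_g D hx).clm_apply (hasFDerivAt_const w x)).clm_apply (hasFDerivAt_const v x)
  have h3 : (fun y => g E y v w) =ᶠ[𝓝 x] (fun y => g E y w v) := by
    filter_upwards [ne_ev hx] with y hy
    exact g_symm D hy v w
  have h4 := (h2.congr_of_eventuallyEq h3).unique h1
  have h5 := congrArg (fun L : V →L[ℝ] ℝ => L u) h4
  simpa using h5.symm

lemma Q_s12 (D : Dat E) {x : V} (hx : x ≠ 0) (u v w z : V) : Q E x u v w z = Q E x v u w z := by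
  have := symmAux (sm_g D hx) u v
  exact congrArg (fun L : V →L[ℝ] V →L[ℝ] ℝ => L w z) this

lemma Q_s23 (D : Dat E) {x : V} (hx : x ≠ 0) (u v w z : V) : Q E x u v w z = Q E x u w v z := by
  have h1 : HasFDerivAt (fun y => C E y v w z) _ x := (((hd_C D hx).clm_apply (hasFDerivAt_const v x)).clm_apply (hasFDerivAt_const w x)).clm_apply (hasFDerivAt_const z x)
  have h2 : HasFDerivAt (fun y => C E y w v z) _ x := (((hd_C D hx).clm_apply (hasFDerivAt_const w x)).clm_apply (hasFDerivAt_const v x)).clm_apply (hasFDerivAt_const z x)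
  have h3 : (fun y => C E y v w z) =ᶠ[𝓝 x] (fun y => C E y w v z) := by
    filter_upwards [ne_ev hx] with y hy
    exact C_s12 D hy v w z
  have h4 := (h2.congr_of_eventuallyEq h3).unique h1
  have h5 := congrArg (fun L : V →L[ℝ] ℝ => L u) h4
  simpa using h5.symm

lemma Q_s34 (D : Dat E) {x : V} (hx : x ≠ 0) (u v w z : V) : Q E x u v w z = Q E x u v z w := by
  have h1 : HasFDerivAt (fun y => C E y v w z) _ x := (((hd_C D hx).clm_apply (hasFDerivAt_const v x)).clm_apply (hasFDerivAt_const w x)).clm_apply (hasFDerivAt_const z x)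
  have h2 : HasFDerivAt (fun y => C E y v z w) _ x := (((hd_C D hx).clm_apply (hasFDerivAt_const v x)).clm_apply (hasFDerivAt_const z x)).clm_apply (hasFDerivAt_const w x)
  have h3 : (fun y => C E y v w z) =ᶠ[𝓝 x] (fun y => C E y v z w) := by
    filter_upwards [ne_ev hx] with y hy
    exact C_s23 D hy v w z
  have h4 := (h2.congr_of_eventuallyEq h3).unique h1
  have h5 := congrArg (fun L : V →L[ℝ] ℝ => L u) h4
  simpa using h5.symm

lemma dE_hom (D : Dat E) {x : V} (hx : x ≠ 0) {t : ℝ} (ht : 0 < t) : fderiv ℝ E (t • x) = t • fderiv ℝ E x := by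
  have htx : t • x ≠ 0 := smul_ne_zero ht.ne' hx
  have h1 : HasFDerivAt (fun y : V => E (t • y)) ((fderiv ℝ E (t • x)).comp (t • ContinuousLinearMap.id ℝ V)) x :=
    (hd_E D htx).comp x ((hasFDerivAt_id x).const_smul t)
  have h2 : HasFDerivAt (fun y : V => t^2 * E y) (t^2 • fderiv ℝ E x) x := (hd_E D hx).const_mul (t^2)
  have h3 : (fun y : V => E (t • y)) = (fun y : V => t^2 * E y) := by
    funext y; exact D.hom t y ht
  rw [h3] at h1
  have h4 := h1.unique h2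
  ext v
  have h5 := congrArg (fun L : V →L[ℝ] ℝ => L v) h4
  simp at h5 ⊢
  have : t * (fderiv ℝ E (t • x) v) = t * (t * fderiv ℝ E x v) := by rw [h5]; ring
  exact mul_left_cancel₀ ht.ne' this

lemma g_hom (D : Dat E) {x : V} (hx : x ≠ 0) {t : ℝ} (ht : 0 < t) : g E (t • x) = g E x := by
  have htx : t • x ≠ 0 := smul_ne_zero ht.ne' hx
  have h1 : HasFDerivAt (fun y : V => fderiv ℝ E (t • y)) ((g E (t • x)).comp (t • ContinuousLinearMap.id ℝ V)) x :=
    (hd_dE D htx).comp x ((hasFDerivAt_id x).const_smul t)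
  have h2 : HasFDerivAt (fun y : V => t • fderiv ℝ E y) (t • g E x) x := (hd_dE D hx).const_smul t
  have h3 : (fun y : V => fderiv ℝ E (t • y)) =ᶠ[𝓝 x] (fun y : V => t • fderiv ℝ E y) := by
    filter_upwards [ne_ev hx] with y hy
    exact dE_hom D hy ht
  have h4 := (h2.congr_of_eventuallyEq h3).unique h1
  ext v w
  have h5 := congrArg (fun L : V →L[ℝ] V →L[ℝ] ℝ => L v w) h4
  simp at h5 ⊢
  rcases h5 with h5 | h5
  · exact h5.symm
  · exact absurd h5 ht.ne'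

lemma C_x (D : Dat E) {x : V} (hx : x ≠ 0) : C E x x = 0 := by
  have h1 : HasDerivAt (fun t : ℝ => g E (t • x)) (C E ((1:ℝ) • x) ((1:ℝ) • x)) 1 := by
    have ha : HasDerivAt (fun t : ℝ => t • x) ((1:ℝ) • x) 1 := (hasDerivAt_id (1:ℝ)).smul_const x
    have hb : HasFDerivAt (g E) (C E ((1:ℝ) • x)) ((1:ℝ) • x) := hd_g D (by simpa using hx)
    exact hb.comp_hasDerivAt 1 ha
  have h2 : HasDerivAt (fun _ : ℝ => g E x) 0 1 := hasDerivAt_const _ _
  have h3 : (fun t : ℝ => g E (t • x)) =ᶠ[𝓝 1] (fun _ : ℝ => g E x) := by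
    filter_upwards [lt_mem_nhds (show (0:ℝ) < 1 by norm_num)] with t ht
    exact g_hom D hx ht
  have h4 := (h2.congr_of_eventuallyEq h3).unique h1
  simpa using h4.symm

lemma g_x (D : Dat E) {x : V} (hx : x ≠ 0) : g E x x = fderiv ℝ E x := by
  have h1 : HasDerivAt (fun t : ℝ => fderiv ℝ E (t • x)) (g E ((1:ℝ) • x) ((1:ℝ) • x)) 1 := by
    have ha : HasDerivAt (fun t : ℝ => t • x) ((1:ℝ) • x) 1 := (hasDerivAt_id (1:ℝ)).smul_const x
    have hb : HasFDerivAt (fderiv ℝ E) (g E ((1:ℝ) • x)) ((1:ℝ) • x) := hd_dE D (by simpa using hx)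
    exact hb.comp_hasDerivAt 1 ha
  have h2 : HasDerivAt (fun t : ℝ => t • fderiv ℝ E x) ((1:ℝ) • fderiv ℝ E x) 1 := (hasDerivAt_id (1:ℝ)).smul_const _
  have h3 : (fun t : ℝ => fderiv ℝ E (t • x)) =ᶠ[𝓝 1] (fun t : ℝ => t • fderiv ℝ E x) := by
    filter_upwards [lt_mem_nhds (show (0:ℝ) < 1 by norm_num)] with t ht
    exact dE_hom D hx ht
  have h4 := (h2.congr_of_eventuallyEq h3).unique h1
  simpa using h4.symm

lemma E_x (D : Dat E) {x : V} (hx : x ≠ 0) : fderiv ℝ E x x = 2 * E x := by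
  have h1 : HasDerivAt (fun t : ℝ => E (t • x)) (fderiv ℝ E ((1:ℝ) • x) ((1:ℝ) • x)) 1 := by
    have ha : HasDerivAt (fun t : ℝ => t • x) ((1:ℝ) • x) 1 := (hasDerivAt_id (1:ℝ)).smul_const x
    have hb : HasFDerivAt E (fderiv ℝ E ((1:ℝ) • x)) ((1:ℝ) • x) := hd_E D (by simpa using hx)
    exact hb.comp_hasDerivAt 1 ha
  have h2 : HasDerivAt (fun t : ℝ => t^2 * E x) (2 * 1 * E x) 1 := by
    have := (hasDerivAt_pow 2 (1:ℝ)).mul_const (E x)
    simpa using this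
  have h3 : (fun t : ℝ => E (t • x)) =ᶠ[𝓝 1] (fun t : ℝ => t^2 * E x) := by
    filter_upwards [lt_mem_nhds (show (0:ℝ) < 1 by norm_num)] with t ht
    exact D.hom t x ht
  have h4 := (h2.congr_of_eventuallyEq h3).unique h1
  simp at h4
  linarith

lemma g_xx (D : Dat E) {x : V} (hx : x ≠ 0) : g E x x x = 2 * E x := by
  rw [g_x D hx, E_x D hx]

/-- product rules -/
lemma hg2 (D : Dat E) {x : V} (hx : x ≠ 0) {a b : V → V} {a' b' : V →L[ℝ] V}
    (ha : HasFDerivAt a a' x) (hb : HasFDerivAt b b' x) :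
    ∃ L : V →L[ℝ] ℝ, HasFDerivAt (fun y => g E y (a y) (b y)) L x ∧
      ∀ v, L v = C E x v (a x) (b x) + g E x (a' v) (b x) + g E x (a x) (b' v) := by
  refine ⟨_, ((hd_g D hx).clm_apply ha).clm_apply hb, ?_⟩
  intro v
  simp
  ring

lemma hC3 (D : Dat E) {x : V} (hx : x ≠ 0) {a b c : V → V} {a' b' c' : V →L[ℝ] V}
    (ha : HasFDerivAt a a' x) (hb : HasFDerivAt b b' x) (hc : HasFDerivAt c c' x) :
    ∃ L : V →L[ℝ] ℝ, HasFDerivAt (fun y => C E y (a y) (b y) (c y)) L x ∧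
      ∀ v, L v = Q E x v (a x) (b x) (c x) + C E x (a' v) (b x) (c x) + C E x (a x) (b' v) (c x)
        + C E x (a x) (b x) (c' v) := by
  refine ⟨_, (((hd_C D hx).clm_apply ha).clm_apply hb).clm_apply hc, ?_⟩
  intro v
  simp
  ring

end H506R3.Lau
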