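import Pool.Agent.H506R3.Lau.L1
set_option autoImplicit false
set_option maxSynthPendingDepth 6
open Topology Filter
namespace H506R3.Lau

variable {E : V → ℝ}

noncomputable def ee (i : Fin 3) : V := Pi.single i 1

lemma vexp (w : V) : w = ∑ i, w i • ee i := by
  funext j
  simp [ee, Finset.sum_apply, Pi.single_apply]

noncomputable def G (E : V → ℝ) (x : V) : Matrix (Fin 3) (Fin 3) ℝ :=
  Matrix.of fun i j => g E x (ee i) (ee j)

def ON (E : V → ℝ) (x : V) (b : Fin 3 → V) : Prop :=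
  ∀ i j, g E x (b i) (b j) = if i = j then 1 else 0

lemma lexp (u : V →L[ℝ] ℝ) (w : V) : u w = w 0 * u (ee 0) + w 1 * u (ee 1) + w 2 * u (ee 2) := by
  conv_lhs => rw [vexp w]
  simp [Fin.sum_univ_three]

lemma gexp (x u v : V) : g E x u v = ∑ p, ∑ q, u p * v q * G E x p q := by
  have h1 : g E x u v = u 0 * g E x (ee 0) v + u 1 * g E x (ee 1) v + u 2 * g E x (ee 2) v := by
    have h := congrArg (fun z => g E x z v) (vexp u)
    simp only [Fin.sum_univ_three, map_add, map_smul] at h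
    simpa using h
  rw [h1, lexp (g E x (ee 0)) v, lexp (g E x (ee 1)) v, lexp (g E x (ee 2)) v]
  simp only [Fin.sum_univ_three, G, Matrix.of_apply]
  ring

noncomputable def BM (b : Fin 3 → V) : Matrix (Fin 3) (Fin 3) ℝ := Matrix.of fun i k => b k i

lemma ON_mat {x : V} {b : Fin 3 → V} (h : ON E x b) : (BM b).transpose * G E x * BM b = 1 := by
  ext i j
  have := h i j
  rw [gexp] at this
  rw [Matrix.one_apply, ← this]
  simp only [Matrix.mul_apply, Matrix.transpose_apply, BM, Matrix.of_apply, Fin.sum_univ_three]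
  ring

lemma ON_mat2 {x : V} {b : Fin 3 → V} (h : ON E x b) : (BM b * (BM b).transpose) * G E x = 1 := by
  have h1 := ON_mat h
  have h2 : BM b * ((BM b).transpose * G E x) = 1 := mul_eq_one_comm.1 h1
  rw [Matrix.mul_assoc]; exact h2

lemma ON_inv {x : V} {b : Fin 3 → V} (h : ON E x b) (p q : Fin 3) :
    (G E x)⁻¹ p q = ∑ k, b k p * b k q := by
  rw [Matrix.inv_eq_left_inv (ON_mat2 h)]
  simp [Matrix.mul_apply, BM]

lemma ON_exp (D : Dat E) {x : V} (hx : x ≠ 0) {b : Fin 3 → V} (h : ON E x b) (w : V) :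
    w = g E x w (b 0) • b 0 + g E x w (b 1) • b 1 + g E x w (b 2) • b 2 := by
  have h1 := ON_mat2 h
  funext p
  have h2 : w p = ∑ q, ((BM b * (BM b).transpose) * G E x) p q * w q := by
    rw [h1]; simp [Matrix.one_apply]
  rw [h2]
  simp only [Pi.add_apply, Pi.smul_apply, smul_eq_mul]
  rw [g_symm D hx w (b 0), g_symm D hx w (b 1), g_symm D hx w (b 2), gexp, gexp, gexp]
  simp only [Matrix.mul_apply, Matrix.transpose_apply, BM, Matrix.of_apply, Fin.sum_univ_three]
  ring

lemma ON_tr (D : Dat E) {x : V} (hx : x ≠ 0) {b : Fin 3 → V} (h : ON E x b) (T : V →L[ℝ] V) :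
    ∑ i, (T (ee i)) i = g E x (T (b 0)) (b 0) + g E x (T (b 1)) (b 1) + g E x (T (b 2)) (b 2) := by
  have h1 : ∀ i, (T (ee i)) i = g E x (ee i) (b 0) * T (b 0) i + g E x (ee i) (b 1) * T (b 1) i
      + g E x (ee i) (b 2) * T (b 2) i := by
    intro i
    have h := congrArg (fun z => T z i) (ON_exp D hx h (ee i))
    simpa using h
  have h2 : ∀ u v : V, g E x u v = u 0 * g E x (ee 0) v + u 1 * g E x (ee 1) v + u 2 * g E x (ee 2) v := by
    intro u v
    rw [g_symm D hx u v, lexp, g_symm D hx v (ee 0), g_symm D hx v (ee 1), g_symm D hx v (ee 2)]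
  rw [h2 (T (b 0)), h2 (T (b 1)), h2 (T (b 2))]
  simp only [Fin.sum_univ_three, h1]
  ring

def Flat (E : V → ℝ) : Prop := ∀ x : V, x ≠ 0 → ∀ i j k l : Fin 3,
  ∑ p : Fin 3, ∑ q : Fin 3, (G E x)⁻¹ p q *
    (C E x (ee i) (ee k) (ee p) * C E x (ee j) (ee l) (ee q)
      - C E x (ee i) (ee l) (ee p) * C E x (ee j) (ee k) (ee q)) = 0

lemma key_contr (b : Fin 3 → V) (u v : V →L[ℝ] ℝ) :
    ∑ p : Fin 3, ∑ q : Fin 3, (∑ k, b k p * b k q) * (u (ee p) * v (ee q)) = ∑ k, u (b k) * v (b k) := by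
  simp only [lexp u (b 0), lexp u (b 1), lexp u (b 2), lexp v (b 0), lexp v (b 1), lexp v (b 2), Fin.sum_univ_three]
  ring

lemma assoc0 (F : Flat E) {x : V} (hx : x ≠ 0) {b : Fin 3 → V} (h : ON E x b) (i j k l : Fin 3) :
    ∑ m, C E x (ee i) (ee k) (b m) * C E x (ee j) (ee l) (b m)
      - ∑ m, C E x (ee i) (ee l) (b m) * C E x (ee j) (ee k) (b m) = 0 := by
  rw [← key_contr, ← key_contr, ← F x hx i j k l, ← Finset.sum_sub_distrib]
  refine Finset.sum_congr rfl fun p _ => ?_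
  rw [← Finset.sum_sub_distrib]
  refine Finset.sum_congr rfl fun q _ => ?_
  rw [ON_inv h]
  ring

lemma lin0 (L : V →ₗ[ℝ] ℝ) (h : ∀ i, L (ee i) = 0) (a : V) : L a = 0 := by
  rw [vexp a]; simp [h]

noncomputable def TT (E : V → ℝ) (x : V) (b : Fin 3 → V) (a a' c d : V) : ℝ :=
  (C E x a c (b 0) * C E x a' d (b 0) + C E x a c (b 1) * C E x a' d (b 1) + C E x a c (b 2) * C E x a' d (b 2))
   - (C E x a d (b 0) * C E x a' c (b 0) + C E x a d (b 1) * C E x a' c (b 1) + C E x a d (b 2) * C E x a' c (b 2))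

lemma assoc (F : Flat E) {x : V} (hx : x ≠ 0) {b : Fin 3 → V} (h : ON E x b) (a a' c d : V) :
    TT E x b a a' c d = 0 := by
  have h0 : ∀ i j k l, TT E x b (ee i) (ee j) (ee k) (ee l) = 0 := by
    intro i j k l
    have := assoc0 F hx h i j k l
    simpa [TT, Fin.sum_univ_three] using this
  have h1 : ∀ j k l, ∀ a, TT E x b a (ee j) (ee k) (ee l) = 0 := by
    intro j k l a
    exact lin0 { toFun := fun a => TT E x b a (ee j) (ee k) (ee l)
                 map_add' := by intro u v; simp [TT]; ring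
                 map_smul' := by intro t u; simp [TT]; ring } (fun i => h0 i j k l) a
  have h2 : ∀ k l, ∀ a a', TT E x b a a' (ee k) (ee l) = 0 := by
    intro k l a a'
    exact lin0 { toFun := fun a' => TT E x b a a' (ee k) (ee l)
                 map_add' := by intro u v; simp [TT]; ring
                 map_smul' := by intro t u; simp [TT]; ring } (fun j => h1 j k l a) a'
  have h3 : ∀ l, ∀ a a' c, TT E x b a a' c (ee l) = 0 := by
    intro l a a' c
    exact lin0 { toFun := fun c => TT E x b a a' c (ee l)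
                 map_add' := by intro u v; simp [TT]; ring
                 map_smul' := by intro t u; simp [TT]; ring } (fun k => h2 k l a a') c
  exact lin0 { toFun := fun d => TT E x b a a' c d
               map_add' := by intro u v; simp [TT]; ring
               map_smul' := by intro t u; simp [TT]; ring } (fun l => h3 l a a' c) d

/-- density -/
noncomputable def dn (E : V → ℝ) (x : V) : ℝ := Real.sqrt (G E x).det

lemma det_pos (x : V) {b : Fin 3 → V} (h : ON E x b) : 0 < (G E x).det := by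
  have h1 := congrArg Matrix.det (ON_mat h)
  rw [Matrix.det_mul, Matrix.det_mul, Matrix.det_transpose, Matrix.det_one] at h1
  have h2 : (BM b).det ^ 2 * (G E x).det = 1 := by rw [← h1]; ring
  by_contra hn
  push Not at hn
  nlinarith [sq_nonneg (BM b).det]

lemma hG (D : Dat E) {x : V} (hx : x ≠ 0) (i j : Fin 3) :
    ∃ L : V →L[ℝ] ℝ, HasFDerivAt (fun y => G E y i j) L x ∧ ∀ v, L v = C E x v (ee i) (ee j) := by
  obtain ⟨L, h1, h2⟩ := hg2 D hx (hasFDerivAt_const (ee i) x) (hasFDerivAt_const (ee j) x)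
  refine ⟨L, by simpa [G] using h1, ?_⟩
  intro v; rw [h2]; simp

lemma dn_deriv (D : Dat E) {x : V} (hx : x ≠ 0) {b : Fin 3 → V} (h : ON E x b) :
    ∃ L : V →L[ℝ] ℝ, HasFDerivAt (dn E) L x ∧
      ∀ v, L v = (1/2) * (C E x v (b 0) (b 0) + C E x v (b 1) (b 1) + C E x v (b 2) (b 2)) * dn E x := by
  choose L hL hL' using fun i => (fun j => hG D hx i j)
  have hdp := det_pos x h
  have hdet : HasFDerivAt (fun y => (G E y).det)
      (((((((G E x 1 1 * G E x 2 2) - (G E x 1 2 * G E x 2 1)) • L 0 0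
        - ((G E x 1 0 * G E x 2 2) - (G E x 1 2 * G E x 2 0)) • L 0 1)
        + ((G E x 1 0 * G E x 2 1) - (G E x 1 1 * G E x 2 0)) • L 0 2)
        + G E x 0 0 • ((G E x 1 1 • L 2 2 + G E x 2 2 • L 1 1) - (G E x 1 2 • L 2 1 + G E x 2 1 • L 1 2)))
        - G E x 0 1 • ((G E x 1 0 • L 2 2 + G E x 2 2 • L 1 0) - (G E x 1 2 • L 2 0 + G E x 2 0 • L 1 2)))
        + G E x 0 2 • ((G E x 1 0 • L 2 1 + G E x 2 1 • L 1 0) - (G E x 1 1 • L 2 0 + G E x 2 0 • L 1 1))) x := by
    have h0 : (fun y => (G E y).det) = fun y => G E y 0 0 * (G E y 1 1 * G E y 2 2 - G E y 1 2 * G E y 2 1)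
        - G E y 0 1 * (G E y 1 0 * G E y 2 2 - G E y 1 2 * G E y 2 0)
        + G E y 0 2 * (G E y 1 0 * G E y 2 1 - G E y 1 1 * G E y 2 0) := by
      funext y; rw [Matrix.det_fin_three]; ring
    rw [h0]
    have e1 := (hL 0 0).mul (((hL 1 1).mul (hL 2 2)).sub ((hL 1 2).mul (hL 2 1)))
    have e2 := (hL 0 1).mul (((hL 1 0).mul (hL 2 2)).sub ((hL 1 2).mul (hL 2 0)))
    have e3 := (hL 0 2).mul (((hL 1 0).mul (hL 2 1)).sub ((hL 1 1).mul (hL 2 0)))
    refine ((e1.sub e2).add e3).congr_fderiv ?_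
    ext v
    simp
    ring
  have hs := hdet.sqrt hdp.ne'
  refine ⟨_, hs, ?_⟩
  intro v
  have hsq : Real.sqrt (G E x).det * Real.sqrt (G E x).det = (G E x).det := Real.mul_self_sqrt hdp.le
  have hsp : 0 < Real.sqrt (G E x).det := Real.sqrt_pos.2 hdp
  -- adjugate entries
  have hadj : ∀ p q, (G E x).adjugate p q = (G E x).det * ∑ k, b k p * b k q := by
    intro p q
    have h3 := Matrix.inv_def (G E x)
    have h4 := congrArg (fun M : Matrix (Fin 3) (Fin 3) ℝ => M p q) h3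
    simp only [Matrix.smul_apply, smul_eq_mul, Ring.inverse_eq_inv'] at h4
    rw [ON_inv h] at h4
    rw [h4]; field_simp
  have hC : ∀ k, C E x v (b k) (b k) = ∑ p, ∑ q, b k p * b k q * C E x v (ee p) (ee q) := by
    intro k
    have h5 := congrArg (fun z => C E x v z (b k)) (vexp (b k))
    simp only [Fin.sum_univ_three, map_add, map_smul] at h5
    have h6 : C E x v (b k) (b k) = b k 0 * C E x v (ee 0) (b k) + b k 1 * C E x v (ee 1) (b k) + b k 2 * C E x v (ee 2) (b k) := by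
      simpa using h5
    rw [h6, lexp (C E x v (ee 0)) (b k), lexp (C E x v (ee 1)) (b k), lexp (C E x v (ee 2)) (b k)]
    simp only [Fin.sum_univ_three]
    ring
  have hA := fun p q => hadj p q
  simp only [Matrix.adjugate_fin_three] at hA
  have a00 := hA 0 0
  have a01 := hA 0 1
  have a02 := hA 0 2
  have a10 := hA 1 0
  have a11 := hA 1 1
  have a12 := hA 1 2
  have a20 := hA 2 0
  have a21 := hA 2 1
  have a22 := hA 2 2
  simp at a00 a01 a02 a10 a11 a12 a20 a21 a22
  have hfin : ((G E x 1 1 * G E x 2 2) - (G E x 1 2 * G E x 2 1)) * C E x v (ee 0) (ee 0)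
        - ((G E x 1 0 * G E x 2 2) - (G E x 1 2 * G E x 2 0)) * C E x v (ee 0) (ee 1)
        + ((G E x 1 0 * G E x 2 1) - (G E x 1 1 * G E x 2 0)) * C E x v (ee 0) (ee 2)
        + G E x 0 0 * ((G E x 1 1 * C E x v (ee 2) (ee 2) + G E x 2 2 * C E x v (ee 1) (ee 1)) - (G E x 1 2 * C E x v (ee 2) (ee 1) + G E x 2 1 * C E x v (ee 1) (ee 2)))
        - G E x 0 1 * ((G E x 1 0 * C E x v (ee 2) (ee 2) + G E x 2 2 * C E x v (ee 1) (ee 0)) - (G E x 1 2 * C E x v (ee 2) (ee 0) + G E x 2 0 * C E x v (ee 1) (ee 2)))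
        + G E x 0 2 * ((G E x 1 0 * C E x v (ee 2) (ee 1) + G E x 2 1 * C E x v (ee 1) (ee 0)) - (G E x 1 1 * C E x v (ee 2) (ee 0) + G E x 2 0 * C E x v (ee 1) (ee 1)))
      = (G E x).det * (C E x v (b 0) (b 0) + C E x v (b 1) (b 1) + C E x v (b 2) (b 2)) := by
    rw [hC 0, hC 1, hC 2]
    simp only [Fin.sum_univ_three] at *
    linear_combination (C E x v (ee 0) (ee 0)) * a00 + (C E x v (ee 1) (ee 0)) * a01 + (C E x v (ee 2) (ee 0)) * a02
      + (C E x v (ee 0) (ee 1)) * a10 + (C E x v (ee 1) (ee 1)) * a11 + (C E x v (ee 2) (ee 1)) * a12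
      + (C E x v (ee 0) (ee 2)) * a20 + (C E x v (ee 1) (ee 2)) * a21 + (C E x v (ee 2) (ee 2)) * a22
  simp only [dn]
  simp [hL']
  field_simp
  rw [show Real.sqrt (G E x).det ^ 2 = (G E x).det by rw [sq, hsq]]
  linear_combination hfin

end H506R3.Lau
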