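import Pool.Agent.H506R3.Lau.L2
set_option autoImplicit false
set_option maxSynthPendingDepth 6
open Topology Filter
namespace H506R3.Lau

variable {E : V → ℝ}

structure Orth (E : V → ℝ) (x e1 e2 : V) : Prop where
  n11 : g E x e1 e1 = 1
  n22 : g E x e2 e2 = 1
  n12 : g E x e1 e2 = 0
  r1 : g E x x e1 = 0
  r2 : g E x x e2 = 0

structure Adapt (E : V → ℝ) (x e1 e2 : V) : Prop extends Orth E x e1 e2 where
  c12 : ∀ w, C E x w e1 e2 = 0

noncomputable def bb (E : V → ℝ) (x e1 e2 : V) : Fin 3 → V := ![e1, e2, (Real.sqrt (g E x x x))⁻¹ • x]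

lemma r2pos (D : Dat E) {x : V} (hx : x ≠ 0) : 0 < g E x x x := D.pos x hx x hx

lemma Orth.on (D : Dat E) {x e1 e2 : V} (hx : x ≠ 0) (h : Orth E x e1 e2) : ON E x (bb E x e1 e2) := by
  have hr := r2pos D hx
  have hs : Real.sqrt (g E x x x) * Real.sqrt (g E x x x) = g E x x x := Real.mul_self_sqrt hr.le
  have hs0 : Real.sqrt (g E x x x) ≠ 0 := (Real.sqrt_pos.2 hr).ne'
  have h12 : g E x e2 e1 = 0 := by rw [g_symm D hx]; exact h.n12
  have hr1 : g E x e1 x = 0 := by rw [g_symm D hx]; exact h.r1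
  have hr2 : g E x e2 x = 0 := by rw [g_symm D hx]; exact h.r2
  intro i j
  fin_cases i <;> fin_cases j <;> simp [bb, h.n11, h.n22, h.n12, h12, h.r1, h.r2, hr1, hr2]
  field_simp
  rw [sq, hs]

lemma Orth.exp (D : Dat E) {x e1 e2 : V} (hx : x ≠ 0) (h : Orth E x e1 e2) (w : V) :
    w = g E x w e1 • e1 + g E x w e2 • e2 + (g E x w x / g E x x x) • x := by
  have hr := r2pos D hx
  have hs : Real.sqrt (g E x x x) * Real.sqrt (g E x x x) = g E x x x := Real.mul_self_sqrt hr.le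
  have hs0 : Real.sqrt (g E x x x) ≠ 0 := (Real.sqrt_pos.2 hr).ne'
  have h1 := ON_exp D hx (h.on D hx) w
  simp only [bb, Matrix.cons_val_zero, Matrix.cons_val_one, Matrix.cons_val] at h1
  have h2 : g E x w ((Real.sqrt (g E x x x))⁻¹ • x) • (Real.sqrt (g E x x x))⁻¹ • x
      = (g E x w x / g E x x x) • x := by
    rw [smul_smul]
    congr 1
    simp only [map_smul, smul_eq_mul]
    field_simp
    rw [sq, hs]
    field_simp
  rw [h2] at h1
  exact h1

lemma Orth.tr (D : Dat E) {x e1 e2 : V} (hx : x ≠ 0) (h : Orth E x e1 e2) (T : V →L[ℝ] V) :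
    ∑ i, (T (ee i)) i = g E x (T e1) e1 + g E x (T e2) e2 + g E x (T x) x / g E x x x := by
  have hr := r2pos D hx
  have hs : Real.sqrt (g E x x x) * Real.sqrt (g E x x x) = g E x x x := Real.mul_self_sqrt hr.le
  have hs0 : Real.sqrt (g E x x x) ≠ 0 := (Real.sqrt_pos.2 hr).ne'
  have h1 := ON_tr D hx (h.on D hx) T
  simp only [bb, Matrix.cons_val_zero, Matrix.cons_val_one, Matrix.cons_val] at h1
  rw [h1]
  congr 1
  simp only [map_smul, ContinuousLinearMap.smul_apply, smul_eq_mul]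
  field_simp
  rw [sq, hs]
  field_simp

lemma Orth.dn (D : Dat E) {x e1 e2 : V} (hx : x ≠ 0) (h : Orth E x e1 e2) :
    ∃ L : V →L[ℝ] ℝ, HasFDerivAt (dn E) L x ∧
      ∀ v, L v = (1/2) * (C E x v e1 e1 + C E x v e2 e2) * dn E x := by
  obtain ⟨L, h1, h2⟩ := dn_deriv D hx (h.on D hx)
  refine ⟨L, h1, ?_⟩
  intro v
  have hc : C E x v x = 0 := by
    ext w
    rw [C_s12 D hx, C_x D hx]; simp
  rw [h2 v]
  simp [bb, hc]

lemma g_sub_x (D : Dat E) {x : V} (hx : x ≠ 0) (u v : V) : C E x u v x = 0 := by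
  rw [C_s23 D hx, C_s12 D hx, C_x D hx]; simp
lemma g_sub_x2 (D : Dat E) {x : V} (hx : x ≠ 0) (u v : V) : C E x u x v = 0 := by
  rw [C_s12 D hx, C_x D hx]; simp

lemma Adapt.C_exp (D : Dat E) {x e1 e2 : V} (hx : x ≠ 0) (h : Adapt E x e1 e2) (u v w : V) :
    C E x u v w = C E x e1 e1 e1 * (g E x u e1 * g E x v e1 * g E x w e1)
      + C E x e2 e2 e2 * (g E x u e2 * g E x v e2 * g E x w e2) := by
  have c1 : ∀ w, C E x e1 e2 w = 0 := by
    intro w; rw [C_s23 D hx, C_s12 D hx]; exact h.c12 w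
  have c2 : ∀ w, C E x e2 e1 w = 0 := by
    intro w; rw [C_s12 D hx]; exact c1 w
  have hu := h.toOrth.exp D hx u
  have hv := h.toOrth.exp D hx v
  have hw := h.toOrth.exp D hx w
  have s1 : C E x u v w = g E x u e1 * C E x e1 v w + g E x u e2 * C E x e2 v w := by
    have := congrArg (fun z => C E x z v w) hu
    simpa [C_x D hx] using this
  have s2 : C E x e1 v w = g E x v e1 * C E x e1 e1 w := by
    have := congrArg (fun z => C E x e1 z w) hv
    simpa [g_sub_x2 D hx, c1] using this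
  have s3 : C E x e2 v w = g E x v e2 * C E x e2 e2 w := by
    have := congrArg (fun z => C E x e2 z w) hv
    simpa [g_sub_x2 D hx, c2] using this
  have s4 : C E x e1 e1 w = g E x w e1 * C E x e1 e1 e1 := by
    have := congrArg (fun z => C E x e1 e1 z) hw
    simpa [g_sub_x D hx, h.c12] using this
  have s5 : C E x e2 e2 w = g E x w e2 * C E x e2 e2 e2 := by
    have h0 : C E x e2 e2 e1 = 0 := by rw [C_s23 D hx]; exact c2 e2
    have := congrArg (fun z => C E x e2 e2 z) hw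
    simpa [g_sub_x D hx, h0] using this
  rw [s1, s2, s3, s4, s5]; ring

noncomputable def lam (E : V → ℝ) (x e : V) : ℝ := C E x e e e
noncomputable def nn (E : V → ℝ) (x e1 e2 : V) : V := lam E x e1 • e1 - lam E x e2 • e2
noncomputable def NN (E : V → ℝ) (x e1 e2 : V) : ℝ := lam E x e1 ^ 2 + lam E x e2 ^ 2
noncomputable def bet (E : V → ℝ) (x e1 e2 : V) : ℝ :=
  Q E x (nn E x e1 e2) (nn E x e1 e2) e1 e2 / NN E x e1 e2 ^ 2
noncomputable def WW (E : V → ℝ) (x e1 e2 : V) : V := lam E x e2 • e1 + lam E x e1 • e2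
noncomputable def YY (E : V → ℝ) (x e1 e2 : V) : V := Real.arctan (bet E x e1 e2) • WW E x e1 e2

lemma NN_pos (D : Dat E) {x e1 e2 : V} (hx : x ≠ 0) (h : Adapt E x e1 e2) (hC : C E x ≠ 0) :
    0 < NN E x e1 e2 := by
  by_contra hn
  push Not at hn
  have h1 : lam E x e1 = 0 := by unfold NN at hn; nlinarith [sq_nonneg (lam E x e1), sq_nonneg (lam E x e2)]
  have h2 : lam E x e2 = 0 := by unfold NN at hn; nlinarith [sq_nonneg (lam E x e1), sq_nonneg (lam E x e2)]
  apply hC
  ext u v w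
  rw [h.C_exp D hx]
  unfold lam at h1 h2
  rw [h1, h2]; simp

lemma YY_neg1 (x e1 e2 : V) : YY E x (-e1) e2 = YY E x e1 e2 := by
  have hl : lam E x (-e1) = - lam E x e1 := by simp [lam]
  have hn : nn E x (-e1) e2 = nn E x e1 e2 := by simp [nn, hl]
  have hN : NN E x (-e1) e2 = NN E x e1 e2 := by simp [NN, hl]
  have hb : bet E x (-e1) e2 = - bet E x e1 e2 := by simp [bet, hn, hN, neg_div]
  have hW : WW E x (-e1) e2 = - WW E x e1 e2 := by simp [WW, hl]; abel
  simp [YY, hb, hW, Real.arctan_neg]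

lemma YY_neg2 (x e1 e2 : V) : YY E x e1 (-e2) = YY E x e1 e2 := by
  have hl : lam E x (-e2) = - lam E x e2 := by simp [lam]
  have hn : nn E x e1 (-e2) = nn E x e1 e2 := by simp [nn, hl]
  have hN : NN E x e1 (-e2) = NN E x e1 e2 := by simp [NN, hl]
  have hb : bet E x e1 (-e2) = - bet E x e1 e2 := by simp [bet, hn, hN, neg_div]
  have hW : WW E x e1 (-e2) = - WW E x e1 e2 := by simp [WW, hl]; abel
  simp [YY, hb, hW, Real.arctan_neg]

lemma YY_swap (D : Dat E) {x : V} (hx : x ≠ 0) (e1 e2 : V) : YY E x e2 e1 = YY E x e1 e2 := by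
  have hn : nn E x e2 e1 = - nn E x e1 e2 := by simp [nn]
  have hN : NN E x e2 e1 = NN E x e1 e2 := by simp [NN]; ring
  have hb : bet E x e2 e1 = bet E x e1 e2 := by
    simp only [bet, hn, hN]
    rw [Q_s34 D hx]; simp
  have hW : WW E x e2 e1 = WW E x e1 e2 := by simp [WW]; abel
  simp [YY, hb, hW]

lemma sq_eq_one_iff_of_ne_zero' (t : ℝ) (h : t^2 = 1) : t = 1 ∨ t = -1 := by
  have : (t-1)*(t+1) = 0 := by nlinarith
  rcases mul_eq_zero.1 this with h1 | h1
  · left; linarith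
  · right; linarith

lemma uniq (D : Dat E) {x e1 e2 f1 f2 : V} (hx : x ≠ 0) (hC : C E x ≠ 0)
    (h : Adapt E x e1 e2) (h' : Adapt E x f1 f2) : YY E x f1 f2 = YY E x e1 e2 := by
  have hN := NN_pos D hx h hC
  obtain ⟨a, b, hf1⟩ : ∃ a b : ℝ, f1 = a • e1 + b • e2 := by
    refine ⟨g E x f1 e1, g E x f1 e2, ?_⟩
    have := h.toOrth.exp D hx f1
    have h0 : g E x f1 x = 0 := by rw [g_symm D hx]; exact h'.r1
    rw [h0] at this; simpa using this
  obtain ⟨c, d, hf2⟩ : ∃ a b : ℝ, f2 = a • e1 + b • e2 := by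
    refine ⟨g E x f2 e1, g E x f2 e2, ?_⟩
    have := h.toOrth.exp D hx f2
    have h0 : g E x f2 x = 0 := by rw [g_symm D hx]; exact h'.r2
    rw [h0] at this; simpa using this
  have h21 : g E x e2 e1 = 0 := by rw [g_symm D hx]; exact h.n12
  have q1 : a^2 + b^2 = 1 := by
    have := h'.n11
    rw [hf1] at this; simp [h.n11, h.n22, h.n12, h21] at this; linarith
  have q2 : c^2 + d^2 = 1 := by
    have := h'.n22
    rw [hf2] at this; simp [h.n11, h.n22, h.n12, h21] at this; linarith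
  have q3 : a*c + b*d = 0 := by
    have := h'.n12
    rw [hf1, hf2] at this; simp [h.n11, h.n22, h.n12, h21] at this; linarith
  have q4 : lam E x e1 * (a * c) = 0 := by
    have := h'.c12 e1
    rw [h.C_exp D hx, hf1, hf2] at this; simp [h.n11, h.n22, h.n12, h21] at this
    unfold lam; rcases this with h3 | h3 | h3 <;> simp [h3]
  have q5 : lam E x e2 * (b * d) = 0 := by
    have := h'.c12 e2
    rw [h.C_exp D hx, hf1, hf2] at this; simp [h.n11, h.n22, h.n12, h21] at this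
    unfold lam; rcases this with h3 | h3 | h3 <;> simp [h3]
  have q6 : a * c = 0 ∧ b * d = 0 := by
    rcases mul_eq_zero.1 q4 with h3 | h3
    · have h4 : lam E x e2 ≠ 0 := by
        intro h5; unfold NN at hN; rw [h3, h5] at hN; simp at hN
      rcases mul_eq_zero.1 q5 with h6 | h6
      · exact absurd h6 h4
      · exact ⟨by linarith, h6⟩
    · exact ⟨h3, by linarith⟩
  rcases mul_eq_zero.1 q6.1 with ha | hc
  · -- a = 0, b = ±1, d = 0, c = ±1
    have hb : b = 1 ∨ b = -1 := by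
      rw [ha] at q1; exact sq_eq_one_iff_of_ne_zero' b (by linarith) 
    have hd : d = 0 := by
      rcases mul_eq_zero.1 q6.2 with h7 | h7
      · rw [ha, h7] at q1; norm_num at q1
      · exact h7
    have hc : c = 1 ∨ c = -1 := by
      rw [hd] at q2; exact sq_eq_one_iff_of_ne_zero' c (by linarith)
    rw [hf1, hf2, ha, hd]
    rcases hb with hb | hb <;> rcases hc with hc | hc <;> rw [hb, hc] <;>
      simp [YY_neg1, YY_neg2, YY_swap D hx e1 e2]
  · have hd : d = 1 ∨ d = -1 := by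
      rw [hc] at q2; exact sq_eq_one_iff_of_ne_zero' d (by linarith)
    have hb : b = 0 := by
      rcases mul_eq_zero.1 q6.2 with h7 | h7
      · exact h7
      · rw [hc, h7] at q2; norm_num at q2
    have ha : a = 1 ∨ a = -1 := by
      rw [hb] at q1; exact sq_eq_one_iff_of_ne_zero' a (by linarith)
    rw [hf1, hf2, hc, hb]
    rcases hd with hd | hd <;> rcases ha with ha | ha <;> rw [hd, ha] <;>
      simp [YY_neg1, YY_neg2]

end H506R3.Lau
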