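import Pool.Agent.H506R3.Lau.L3
set_option autoImplicit false
set_option maxSynthPendingDepth 6
open Topology Filter
namespace H506R3.Lau

variable {E : V → ℝ}

structure Fr (E : V → ℝ) (x : V) (e1 e2 : V → V) : Prop where
  hx : x ≠ 0
  hC : C E x ≠ 0
  s1 : ContDiffAt ℝ 2 e1 x
  s2 : ContDiffAt ℝ 2 e2 x
  ad : ∀ᶠ y in 𝓝 x, Adapt E y (e1 y) (e2 y)

lemma Fr.ev (D : Dat E) {x : V} {e1 e2 : V → V} (h : Fr E x e1 e2) : ∀ᶠ y in 𝓝 x, Fr E y e1 e2 := by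
  have h1 : ∀ᶠ y in 𝓝 x, C E y ≠ 0 := (sm_C D h.hx).continuousAt.eventually_ne h.hC
  filter_upwards [ne_ev h.hx, h1, h.s1.eventually (by simp), h.s2.eventually (by simp),
    eventually_eventually_nhds.2 h.ad] with y a b c d e
  exact ⟨a, b, c, d, e⟩

lemma evconst {f : V → ℝ} {c : ℝ} {x : V} {L : V →L[ℝ] ℝ} (h : HasFDerivAt f L x)
    (h2 : ∀ᶠ y in 𝓝 x, f y = c) : L = 0 := by
  have h3 : HasFDerivAt f (0 : V →L[ℝ] ℝ) x := (hasFDerivAt_const c x).congr_of_eventuallyEq h2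
  exact h.unique h3

variable {x : V} {e1 e2 : V → V}

lemma Fr.d1 (h : Fr E x e1 e2) : HasFDerivAt e1 (fderiv ℝ e1 x) x :=
  (h.s1.differentiableAt (by simp)).hasFDerivAt
lemma Fr.d2 (h : Fr E x e1 e2) : HasFDerivAt e2 (fderiv ℝ e2 x) x :=
  (h.s2.differentiableAt (by simp)).hasFDerivAt
lemma Fr.at (h : Fr E x e1 e2) : Adapt E x (e1 x) (e2 x) := h.ad.self_of_nhds

lemma Fr.A (D : Dat E) (h : Fr E x e1 e2) (v : V) :
    C E x v (e1 x) (e1 x) + 2 * g E x (fderiv ℝ e1 x v) (e1 x) = 0 := by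
  obtain ⟨L, h1, h2⟩ := hg2 D h.hx h.d1 h.d1
  have h3 := evconst h1 (c := 1) (h.ad.mono fun y hy => hy.n11)
  have h4 := h2 v
  rw [h3, g_symm D h.hx (e1 x)] at h4
  simp at h4; linarith

lemma Fr.B (D : Dat E) (h : Fr E x e1 e2) (v : V) :
    C E x v (e2 x) (e2 x) + 2 * g E x (fderiv ℝ e2 x v) (e2 x) = 0 := by
  obtain ⟨L, h1, h2⟩ := hg2 D h.hx h.d2 h.d2
  have h3 := evconst h1 (c := 1) (h.ad.mono fun y hy => hy.n22)
  have h4 := h2 v
  rw [h3, g_symm D h.hx (e2 x)] at h4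
  simp at h4; linarith

lemma Fr.c (D : Dat E) (h : Fr E x e1 e2) (v : V) :
    g E x (fderiv ℝ e1 x v) (e2 x) + g E x (e1 x) (fderiv ℝ e2 x v) = 0 := by
  obtain ⟨L, h1, h2⟩ := hg2 D h.hx h.d1 h.d2
  have h3 := evconst h1 (c := 0) (h.ad.mono fun y hy => hy.n12)
  have h4 := h2 v
  rw [h3, h.at.c12 v] at h4
  simp at h4; linarith

lemma Fr.r1' (D : Dat E) (h : Fr E x e1 e2) (v : V) :
    g E x v (e1 x) + g E x x (fderiv ℝ e1 x v) = 0 := by
  obtain ⟨L, h1, h2⟩ := hg2 D h.hx (hasFDerivAt_id x) h.d1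
  have h3 := evconst h1 (c := 0) (h.ad.mono fun y hy => hy.r1)
  have h4 := h2 v
  simp only [id] at h4
  rw [h3, g_sub_x2 D h.hx] at h4
  simp at h4; linarith

lemma Fr.r2' (D : Dat E) (h : Fr E x e1 e2) (v : V) :
    g E x v (e2 x) + g E x x (fderiv ℝ e2 x v) = 0 := by
  obtain ⟨L, h1, h2⟩ := hg2 D h.hx (hasFDerivAt_id x) h.d2
  have h3 := evconst h1 (c := 0) (h.ad.mono fun y hy => hy.r2)
  have h4 := h2 v
  simp only [id] at h4
  rw [h3, g_sub_x2 D h.hx] at h4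
  simp at h4; linarith

lemma Fr.e (D : Dat E) (h : Fr E x e1 e2) (v w : V) :
    Q E x v w (e1 x) (e2 x) + C E x w (fderiv ℝ e1 x v) (e2 x) + C E x w (e1 x) (fderiv ℝ e2 x v) = 0 := by
  obtain ⟨L, h1, h2⟩ := hC3 D h.hx (hasFDerivAt_const w x) h.d1 h.d2
  have h3 := evconst h1 (c := 0) (h.ad.mono fun y hy => hy.c12 w)
  have h4 := h2 v
  rw [h3] at h4
  simp at h4; linarith

/-- the connection form is `β ζ` -/
lemma Fr.Qom (D : Dat E) (h : Fr E x e1 e2) (v w : V) :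
    Q E x v w (e1 x) (e2 x) = g E x (fderiv ℝ e1 x v) (e2 x) *
      (lam E x (e1 x) * g E x w (e1 x) - lam E x (e2 x) * g E x w (e2 x)) := by
  have h1 := h.e D v w
  have h2 := h.c D v
  have h21 : g E x (e2 x) (e1 x) = 0 := by rw [g_symm D h.hx]; exact h.at.n12
  rw [h.at.C_exp D h.hx w (fderiv ℝ e1 x v), h.at.C_exp D h.hx w (e1 x), h21, h.at.n22, h.at.n12,
    h.at.n11] at h1
  rw [g_symm D h.hx (e1 x)] at h2
  unfold lam
  linear_combination h1 - (C E x (e1 x) (e1 x) (e1 x)) * (g E x w (e1 x)) * h2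

lemma Fr.om (D : Dat E) (h : Fr E x e1 e2) (v : V) :
    g E x (fderiv ℝ e1 x v) (e2 x) = bet E x (e1 x) (e2 x) *
      (lam E x (e1 x) * g E x v (e1 x) - lam E x (e2 x) * g E x v (e2 x)) := by
  have hN := NN_pos D h.hx h.at h.hC
  set n := nn E x (e1 x) (e2 x) with hn
  have h21 : g E x (e2 x) (e1 x) = 0 := by rw [g_symm D h.hx]; exact h.at.n12
  have t1 : g E x n (e1 x) = lam E x (e1 x) := by
    rw [hn]; simp [nn, h.at.n11, h21]
  have t2 : g E x n (e2 x) = - lam E x (e2 x) := by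
    rw [hn]; simp [nn, h.at.n22, h.at.n12]
  have z1 := h.Qom D v n
  have z2 := h.Qom D n v
  have z3 := h.Qom D n n
  rw [Q_s12 D h.hx] at z2
  have hb : bet E x (e1 x) (e2 x) * NN E x (e1 x) (e2 x) ^ 2 = Q E x n n (e1 x) (e2 x) := by
    rw [bet, ← hn]; field_simp
  rw [t1, t2] at z1 z3
  have hNN : NN E x (e1 x) (e2 x) = lam E x (e1 x) ^ 2 + lam E x (e2 x) ^ 2 := rfl
  have z4 : g E x (fderiv ℝ e1 x n) (e2 x) = bet E x (e1 x) (e2 x) * NN E x (e1 x) (e2 x) := by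
    apply mul_right_cancel₀ hN.ne'
    rw [hNN] at hb ⊢
    linear_combination (-1) * z3 - hb
  apply mul_right_cancel₀ hN.ne'
  rw [z4] at z2
  rw [hNN] at z2 ⊢
  linear_combination z2 - z1

/-- smoothness of the scalar data -/
lemma sm_lam (D : Dat E) (hx : x ≠ 0) {e : V → V} (he : ContDiffAt ℝ 2 e x) :
    ContDiffAt ℝ 2 (fun y => lam E y (e y)) x := by
  have hC : ContDiffAt ℝ 2 (C E) x := (sm_C D hx).of_le (WithTop.coe_le_coe.2 (le_top : (2:ℕ∞) ≤ ⊤))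
  exact ((hC.clm_apply he).clm_apply he).clm_apply he

lemma Fr.sm_bet (D : Dat E) (h : Fr E x e1 e2) :
    ContDiffAt ℝ 2 (fun y => bet E y (e1 y) (e2 y)) x := by
  have hQ : ContDiffAt ℝ 2 (Q E) x := (sm_Q D h.hx).of_le (WithTop.coe_le_coe.2 (le_top : (2:ℕ∞) ≤ ⊤))
  have l1 := sm_lam D h.hx h.s1
  have l2 := sm_lam D h.hx h.s2
  have hn : ContDiffAt ℝ 2 (fun y => nn E y (e1 y) (e2 y)) x := (l1.smul h.s1).sub (l2.smul h.s2)
  have hN : ContDiffAt ℝ 2 (fun y => NN E y (e1 y) (e2 y)) x := (l1.pow 2).add (l2.pow 2)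
  have hNp := NN_pos D h.hx h.at h.hC
  exact ((((hQ.clm_apply hn).clm_apply hn).clm_apply h.s1).clm_apply h.s2).div (hN.pow 2)
    (pow_ne_zero 2 hNp.ne')

lemma Fr.sm_W (D : Dat E) (h : Fr E x e1 e2) :
    ContDiffAt ℝ 2 (fun y => WW E y (e1 y) (e2 y)) x :=
  ((sm_lam D h.hx h.s2).smul h.s1).add ((sm_lam D h.hx h.s1).smul h.s2)

/-- `W(β) = 1/r²` -/
lemma Fr.Wbet (D : Dat E) (h : Fr E x e1 e2) :
    fderiv ℝ (fun y => bet E y (e1 y) (e2 y)) x (WW E x (e1 x) (e2 x)) = 1 / g E x x x := by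
  have hN := NN_pos D h.hx h.at h.hC
  have hr := r2pos D h.hx
  have h21 : g E x (e2 x) (e1 x) = 0 := by rw [g_symm D h.hx]; exact h.at.n12
  set B := fderiv ℝ (fun y => bet E y (e1 y) (e2 y)) x with hB
  have hBd : HasFDerivAt (fun y => bet E y (e1 y) (e2 y)) B x :=
    ((h.sm_bet D).differentiableAt (by simp)).hasFDerivAt
  set β := bet E x (e1 x) (e2 x) with hβ
  -- second derivatives of e1
  have hdd : HasFDerivAt (fderiv ℝ e1) (fderiv ℝ (fderiv ℝ e1) x) x :=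
    ((h.s1.fderiv_right (m := 1) (by norm_num)).differentiableAt (by simp)).hasFDerivAt
  have hsym : ∀ u v, fderiv ℝ (fderiv ℝ e1) x u v = fderiv ℝ (fderiv ℝ e1) x v u := fun u v =>
    (h.s1.isSymmSndFDerivAt (by simp)) u v
  have key : ∀ u v : V, C E x u (fderiv ℝ e1 x v) (e2 x) + g E x (fderiv ℝ (fderiv ℝ e1) x u v) (e2 x)
      + g E x (fderiv ℝ e1 x v) (fderiv ℝ e2 x u)
      = B u * (C E x (e1 x) (e1 x) v - C E x (e2 x) (e2 x) v)
        + β * ((Q E x u (e1 x) (e1 x) v + C E x (fderiv ℝ e1 x u) (e1 x) v + C E x (e1 x) (fderiv ℝ e1 x u) v)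
          - (Q E x u (e2 x) (e2 x) v + C E x (fderiv ℝ e2 x u) (e2 x) v + C E x (e2 x) (fderiv ℝ e2 x u) v)) := by
    intro u v
    obtain ⟨L1, a1, a2⟩ := hg2 D h.hx (hdd.clm_apply (hasFDerivAt_const v x)) h.d2
    obtain ⟨L2, b1, b2⟩ := hC3 D h.hx h.d1 h.d1 (hasFDerivAt_const v x)
    obtain ⟨L3, c1, c2⟩ := hC3 D h.hx h.d2 h.d2 (hasFDerivAt_const v x)
    have d1 := hBd.mul (b1.sub c1)
    have hev : (fun y => g E y ((fderiv ℝ e1 y) v) (e2 y)) =ᶠ[𝓝 x]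
        (fun y => bet E y (e1 y) (e2 y) * (C E y (e1 y) (e1 y) v - C E y (e2 y) (e2 y) v)) := by
      filter_upwards [h.ev D] with y hy
      have := hy.om D v
      rw [this]
      congr 1
      have h21y : g E y (e2 y) (e1 y) = 0 := by rw [g_symm D hy.hx]; exact hy.at.n12
      rw [hy.at.C_exp D hy.hx (e1 y) (e1 y) v, hy.at.C_exp D hy.hx (e2 y) (e2 y) v, hy.at.n11, hy.at.n22,
        hy.at.n12, h21y]
      unfold lam
      ring
    have e3 := (d1.congr_of_eventuallyEq hev).unique a1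
    have e4 := congrArg (fun L : V →L[ℝ] ℝ => L u) e3
    have a3 := a2 u
    have b3 := b2 u
    have c3 := c2 u
    simp at e4 a3 b3 c3
    rw [a3, b3, c3] at e4
    rw [← hβ] at e4
    linear_combination -e4
  -- everything in terms of the components
  set l1 := lam E x (e1 x) with hl1
  set l2 := lam E x (e2 x) with hl2
  have hom := h.om D
  have hA := h.A D
  have hBB := h.B D
  have hc := h.c D
  have hr1 := h.r1' D
  have hr2 := h.r2' D
  set W := WW E x (e1 x) (e2 x) with hW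
  set n := nn E x (e1 x) (e2 x) with hn
  have tn1 : g E x n (e1 x) = l1 := by rw [hn]; simp [nn, h.at.n11, h21, hl1]
  have tn2 : g E x n (e2 x) = - l2 := by rw [hn]; simp [nn, h.at.n22, h.at.n12, hl2]
  have tW1 : g E x W (e1 x) = l2 := by rw [hW]; simp [WW, h.at.n11, h21, hl2]
  have tW2 : g E x W (e2 x) = l1 := by rw [hW]; simp [WW, h.at.n22, h.at.n12, hl1]
  have k1 := key W n
  have k2 := key n W
  have hQ1 : Q E x W (e1 x) (e1 x) n = Q E x n (e1 x) (e1 x) W := by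
    rw [Q_s34 D h.hx, Q_s23 D h.hx, Q_s12 D h.hx, Q_s23 D h.hx, Q_s34 D h.hx]
  have hQ2 : Q E x W (e2 x) (e2 x) n = Q E x n (e2 x) (e2 x) W := by
    rw [Q_s34 D h.hx, Q_s23 D h.hx, Q_s12 D h.hx, Q_s23 D h.hx, Q_s34 D h.hx]
  have hgg : ∀ u v, g E x (fderiv ℝ e1 x v) (fderiv ℝ e2 x u) =
      g E x (fderiv ℝ e1 x v) (e1 x) * g E x (e1 x) (fderiv ℝ e2 x u)
      + g E x (fderiv ℝ e1 x v) (e2 x) * g E x (fderiv ℝ e2 x u) (e2 x)
      + g E x x (fderiv ℝ e1 x v) / g E x x x * g E x x (fderiv ℝ e2 x u) := by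
    intro u v
    have h5 := h.at.toOrth.exp D h.hx (fderiv ℝ e1 x v)
    have h6 := congrArg (fun z => g E x z (fderiv ℝ e2 x u)) h5
    simp only [map_add, map_smul, ContinuousLinearMap.add_apply, ContinuousLinearMap.smul_apply, smul_eq_mul] at h6
    rw [h6, g_symm D h.hx (fderiv ℝ e2 x u) (e2 x), g_symm D h.hx x (fderiv ℝ e1 x v)]
  have s12 : g E x (e1 x) (e2 x) = 0 := h.at.n12
  have s11 : g E x (e1 x) (e1 x) = 1 := h.at.n11
  have s22 : g E x (e2 x) (e2 x) = 1 := h.at.n22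
  rw [hgg] at k1 k2
  rw [hQ1, hQ2] at k1
  rw [hsym] at k1
  -- expand C
  have cx := h.at.C_exp D h.hx
  have hAu : ∀ v, g E x (fderiv ℝ e1 x v) (e1 x) = -(1/2) * (l1 * g E x v (e1 x)) := by
    intro v
    have := hA v
    rw [cx v (e1 x) (e1 x), s11, s12] at this
    rw [hl1]; unfold lam; linarith
  have hBu : ∀ v, g E x (fderiv ℝ e2 x v) (e2 x) = -(1/2) * (l2 * g E x v (e2 x)) := by
    intro v
    have := hBB v
    rw [cx v (e2 x) (e2 x), s22, h21] at this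
    rw [hl2]; unfold lam; linarith
  have hcu : ∀ v, g E x (e1 x) (fderiv ℝ e2 x v) = - g E x (fderiv ℝ e1 x v) (e2 x) := by
    intro v; linarith [hc v]
  have hcu' : ∀ v, g E x (fderiv ℝ e2 x v) (e1 x) = - g E x (fderiv ℝ e1 x v) (e2 x) := by
    intro v; rw [g_symm D h.hx]; exact hcu v
  have hru : ∀ v, g E x x (fderiv ℝ e1 x v) = - g E x v (e1 x) := by
    intro v; linarith [hr1 v]
  have hru2 : ∀ v, g E x x (fderiv ℝ e2 x v) = - g E x v (e2 x) := by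
    intro v; linarith [hr2 v]
  have L1e : C E x (e1 x) (e1 x) (e1 x) = l1 := rfl
  have L2e : C E x (e2 x) (e2 x) (e2 x) = l2 := rfl
  rw [cx W (fderiv ℝ e1 x n) (e2 x), cx (e1 x) (e1 x) n, cx (e2 x) (e2 x) n, cx (fderiv ℝ e1 x W) (e1 x) n,
    cx (e1 x) (fderiv ℝ e1 x W) n, cx (fderiv ℝ e2 x W) (e2 x) n, cx (e2 x) (fderiv ℝ e2 x W) n] at k1
  rw [cx n (fderiv ℝ e1 x W) (e2 x), cx (e1 x) (e1 x) W, cx (e2 x) (e2 x) W, cx (fderiv ℝ e1 x n) (e1 x) W,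
    cx (e1 x) (fderiv ℝ e1 x n) W, cx (fderiv ℝ e2 x n) (e2 x) W, cx (e2 x) (fderiv ℝ e2 x n) W] at k2
  simp only [L1e, L2e, s12, s11, s22, h21, hAu, hBu, hcu, hcu', hru, hru2, hom, tn1, tn2, tW1, tW2] at k1 k2
  have hNN : NN E x (e1 x) (e2 x) = l1 ^ 2 + l2 ^ 2 := rfl
  rw [hNN] at hN
  have fin : g E x x x * (B W * (l1^2 + l2^2)) = (l1^2 + l2^2) := by
    simp only [← hl1, ← hl2, ← hβ] at k1 k2
    field_simp at k1 k2
    linear_combination (1/2) * (k2 - k1)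
  have h9 : B W * (l1^2 + l2^2) = (1 / g E x x x) * (g E x x x * (B W * (l1^2+l2^2))) := by
    rw [← mul_assoc (1 / g E x x x), one_div, inv_mul_cancel₀ hr.ne', one_mul]
  rw [fin] at h9
  exact mul_right_cancel₀ hN.ne' h9

/-- derivative of `λ_a` -/
lemma hd_lam (D : Dat E) (hx : x ≠ 0) {e : V → V} {e' : V →L[ℝ] V} (he : HasFDerivAt e e' x) :
    ∃ L : V →L[ℝ] ℝ, HasFDerivAt (fun y => lam E y (e y)) L x ∧
      ∀ v, L v = Q E x v (e x) (e x) (e x) + 3 * C E x (e' v) (e x) (e x) := by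
  obtain ⟨L, h1, h2⟩ := hC3 D hx he he he
  refine ⟨L, h1, ?_⟩
  intro v
  rw [h2, C_s12 D hx (e x) (e' v) (e x), C_s23 D hx (e x) (e x) (e' v), C_s12 D hx (e x) (e' v) (e x)]
  ring

/-- Euclidean divergence of `W` is `-λ₁λ₂` -/
lemma Fr.divW (D : Dat E) (h : Fr E x e1 e2) :
    ∃ T : V →L[ℝ] V, HasFDerivAt (fun y => WW E y (e1 y) (e2 y)) T x ∧
      ∑ i, (T (ee i)) i = - (lam E x (e1 x) * lam E x (e2 x)) := by
  have hr := r2pos D h.hx
  obtain ⟨L1, a1, a2⟩ := hd_lam D h.hx h.d1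
  obtain ⟨L2, b1, b2⟩ := hd_lam D h.hx h.d2
  refine ⟨_, (b1.smul h.d1).add (a1.smul h.d2), ?_⟩
  rw [h.at.toOrth.tr D h.hx]
  have h21 : g E x (e2 x) (e1 x) = 0 := by rw [g_symm D h.hx]; exact h.at.n12
  have s12 : g E x (e1 x) (e2 x) = 0 := h.at.n12
  have s11 : g E x (e1 x) (e1 x) = 1 := h.at.n11
  have s22 : g E x (e2 x) (e2 x) = 1 := h.at.n22
  have sx1 : g E x (e1 x) x = 0 := by rw [g_symm D h.hx]; exact h.at.r1
  have sx2 : g E x (e2 x) x = 0 := by rw [g_symm D h.hx]; exact h.at.r2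
  have hA := h.A D
  have hBB := h.B D
  have hc := h.c D
  have hr1 := h.r1' D
  have hr2 := h.r2' D
  have cx := h.at.C_exp D h.hx
  have hQ := h.Qom D
  have hom := h.om D
  set l1 := lam E x (e1 x) with hl1
  set l2 := lam E x (e2 x) with hl2
  set β := bet E x (e1 x) (e2 x) with hβ
  have hAu : ∀ v, g E x (fderiv ℝ e1 x v) (e1 x) = -(1/2) * (l1 * g E x v (e1 x)) := by
    intro v
    have := hA v
    rw [cx v (e1 x) (e1 x), s11, s12] at this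
    rw [hl1]; unfold lam; linarith
  have hBu : ∀ v, g E x (fderiv ℝ e2 x v) (e2 x) = -(1/2) * (l2 * g E x v (e2 x)) := by
    intro v
    have := hBB v
    rw [cx v (e2 x) (e2 x), s22, h21] at this
    rw [hl2]; unfold lam; linarith
  have hcu : ∀ v, g E x (fderiv ℝ e2 x v) (e1 x) = - g E x (fderiv ℝ e1 x v) (e2 x) := by
    intro v; rw [g_symm D h.hx]; linarith [hc v]
  have hru : ∀ v, g E x (fderiv ℝ e1 x v) x = - g E x v (e1 x) := by
    intro v; rw [g_symm D h.hx]; linarith [hr1 v]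
  have hru2 : ∀ v, g E x (fderiv ℝ e2 x v) x = - g E x v (e2 x) := by
    intro v; rw [g_symm D h.hx]; linarith [hr2 v]
  have q1 : Q E x (e1 x) (e2 x) (e2 x) (e2 x) = β * l2^2 := by
    rw [Q_s12 D h.hx, Q_s23 D h.hx, hQ, hom, h21, s22]; ring
  have q2 : Q E x (e2 x) (e1 x) (e1 x) (e1 x) = β * l1^2 := by
    rw [Q_s12 D h.hx, Q_s23 D h.hx, Q_s34 D h.hx, hQ, hom, s12, s11]; ring
  have p1 : C E x (fderiv ℝ e2 x (e1 x)) (e2 x) (e2 x) = 0 := by
    rw [cx, hBu, h21, s12]; ring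
  have p2 : C E x (fderiv ℝ e1 x (e2 x)) (e1 x) (e1 x) = 0 := by
    rw [cx, hAu, h21, s12]; ring
  have rx1 : g E x x (e1 x) = 0 := h.at.r1
  have rx2 : g E x x (e2 x) = 0 := h.at.r2
  simp only [map_add, map_smul, add_apply, smul_apply, smul_eq_mul, ContinuousLinearMap.smulRight_apply]
  rw [a2, b2, a2, b2, q1, q2, p1, p2]
  simp only [hAu, hBu, hcu, hru, hru2, s12, s11, s22, h21, sx1, sx2, rx1, rx2, hom]
  ring

end H506R3.Lau
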