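import Pool.Agent.H506R3.Lau.L4
set_option autoImplicit false
set_option maxSynthPendingDepth 6
open Topology Filter
namespace H506R3.Lau

variable {E : V → ℝ} {x : V} {e1 e2 : V → V}

lemma Fr.divX (D : Dat E) (h : Fr E x e1 e2) {κ : V → ℝ} {κ' : V →L[ℝ] ℝ} (hκ : HasFDerivAt κ κ' x) :
    ∃ T : V →L[ℝ] V, HasFDerivAt (fun y => (dn E y * κ y) • YY E y (e1 y) (e2 y)) T x ∧
      ∑ i, (T (ee i)) i = dn E x * (κ' (YY E x (e1 x) (e2 x)) +
        κ x / (g E x x x * (1 + bet E x (e1 x) (e2 x) ^ 2))) := by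
  have hr := r2pos D h.hx
  obtain ⟨Ld, d1, d2⟩ := h.at.toOrth.dn D h.hx
  obtain ⟨TW, w1, w2⟩ := h.divW D
  have hBd : HasFDerivAt (fun y => bet E y (e1 y) (e2 y)) (fderiv ℝ (fun y => bet E y (e1 y) (e2 y)) x) x :=
    ((h.sm_bet D).differentiableAt (by simp)).hasFDerivAt
  have hWb := h.Wbet D
  set B := fderiv ℝ (fun y => bet E y (e1 y) (e2 y)) x with hB
  set β := bet E x (e1 x) (e2 x) with hβ
  have hat := hBd.arctan
  have hY := hat.smul w1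
  have hX := (d1.mul hκ).smul hY
  refine ⟨_, hX, ?_⟩
  have h21 : g E x (e2 x) (e1 x) = 0 := by rw [g_symm D h.hx]; exact h.at.n12
  have hdW : Ld (WW E x (e1 x) (e2 x)) = lam E x (e1 x) * lam E x (e2 x) * dn E x := by
    rw [d2, h.at.C_exp D h.hx (WW E x (e1 x) (e2 x)) (e1 x) (e1 x), h.at.C_exp D h.hx (WW E x (e1 x) (e2 x)) (e2 x) (e2 x), h.at.n11, h.at.n12, h21, h.at.n22]
    have t1 : g E x (WW E x (e1 x) (e2 x)) (e1 x) = lam E x (e2 x) := by simp [WW, h.at.n11, h21]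
    have t2 : g E x (WW E x (e1 x) (e2 x)) (e2 x) = lam E x (e1 x) := by simp [WW, h.at.n22, h.at.n12]
    rw [t1, t2]; unfold lam; ring
  -- trace of rank one pieces
  have htr : ∀ (L : V →L[ℝ] ℝ) (z : V), ∑ i, (L (ee i)) * z i = L z := by
    intro L z
    rw [lexp L z, Fin.sum_univ_three]; ring
  have hb2 : 0 < 1 + β^2 := by positivity
  have hsum : ∀ i, ((dn E x * κ x) • (Real.arctan β • TW + ((1 / (1 + β ^ 2)) • B).smulRight (WW E x (e1 x) (e2 x)))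
      + (dn E x • κ' + κ x • Ld).smulRight (Real.arctan β • WW E x (e1 x) (e2 x))) (ee i) i
      = (dn E x * κ x) * (Real.arctan β * (TW (ee i)) i + (1 / (1 + β ^ 2)) * (B (ee i) * WW E x (e1 x) (e2 x) i))
        + Real.arctan β * (dn E x * (κ' (ee i) * WW E x (e1 x) (e2 x) i) + κ x * (Ld (ee i) * WW E x (e1 x) (e2 x) i)) := by
    intro i
    simp
    ring
  refine (Finset.sum_congr rfl fun i _ => hsum i).trans ?_
  rw [Finset.sum_add_distrib, ← Finset.mul_sum, ← Finset.mul_sum, Finset.sum_add_distrib, Finset.sum_add_distrib,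
    ← Finset.mul_sum, ← Finset.mul_sum, ← Finset.mul_sum, ← Finset.mul_sum, htr, htr, htr, w2, hWb, hdW]
  simp only [YY, map_smul, smul_eq_mul, ← hβ]
  field_simp
  ring

lemma Fr.sm_X (D : Dat E) (h : Fr E x e1 e2) {κ : V → ℝ} (hκ : ContDiffAt ℝ 1 κ x) :
    ContDiffAt ℝ 1 (fun y => (dn E y * κ y) • YY E y (e1 y) (e2 y)) x := by
  have h12 : (1 : WithTop ℕ∞) ≤ 2 := by norm_num
  have hg : ContDiffAt ℝ 1 (g E) x := (sm_g D h.hx).of_le (WithTop.coe_le_coe.2 (le_top : (1:ℕ∞) ≤ ⊤))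
  have hGij : ∀ i j, ContDiffAt ℝ 1 (fun y => G E y i j) x := by
    intro i j
    exact (hg.clm_apply contDiffAt_const).clm_apply contDiffAt_const
  have hdet : ContDiffAt ℝ 1 (fun y => (G E y).det) x := by
    have h0 : (fun y => (G E y).det) = fun y => G E y 0 0 * (G E y 1 1 * G E y 2 2 - G E y 1 2 * G E y 2 1)
        - G E y 0 1 * (G E y 1 0 * G E y 2 2 - G E y 1 2 * G E y 2 0)
        + G E y 0 2 * (G E y 1 0 * G E y 2 1 - G E y 1 1 * G E y 2 0) := by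
      funext y; rw [Matrix.det_fin_three]; ring
    rw [h0]
    exact (((hGij 0 0).mul (((hGij 1 1).mul (hGij 2 2)).sub ((hGij 1 2).mul (hGij 2 1)))).sub
      ((hGij 0 1).mul (((hGij 1 0).mul (hGij 2 2)).sub ((hGij 1 2).mul (hGij 2 0))))).add
      ((hGij 0 2).mul (((hGij 1 0).mul (hGij 2 1)).sub ((hGij 1 1).mul (hGij 2 0))))
  have hdn : ContDiffAt ℝ 1 (dn E) x := hdet.sqrt (det_pos x (h.at.toOrth.on D h.hx)).ne'
  exact (hdn.mul hκ).smul (((h.sm_bet D).of_le h12).arctan.smul ((h.sm_W D).of_le h12))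

/-- existence of two vectors orthogonal to `x` -/
lemma exists_orth0 (D : Dat E) (hx : x ≠ 0) : ∃ a1 a2 : V, a1 ≠ 0 ∧ a2 ≠ 0 ∧ g E x x a1 = 0 ∧ g E x x a2 = 0
    ∧ g E x a1 a2 = 0 := by
  obtain ⟨a1, h1, h1'⟩ : ∃ a1 : V, a1 ≠ 0 ∧ g E x x a1 = 0 := by
    have hlt : Module.finrank ℝ ℝ < Module.finrank ℝ V := by simp
    have := LinearMap.ker_ne_bot_of_finrank_lt (f := (g E x x : V →ₗ[ℝ] ℝ)) hlt
    obtain ⟨a, ha, ha0⟩ := (Submodule.ne_bot_iff _).1 this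
    exact ⟨a, ha0, by simpa using ha⟩
  obtain ⟨a2, h2, h2'⟩ : ∃ a2 : V, a2 ≠ 0 ∧ (g E x x a2 = 0 ∧ g E x a1 a2 = 0) := by
    have hlt : Module.finrank ℝ (ℝ × ℝ) < Module.finrank ℝ V := by simp
    have := LinearMap.ker_ne_bot_of_finrank_lt
      (f := LinearMap.prod (g E x x : V →ₗ[ℝ] ℝ) (g E x a1 : V →ₗ[ℝ] ℝ)) hlt
    obtain ⟨a, ha, ha0⟩ := (Submodule.ne_bot_iff _).1 this
    exact ⟨a, ha0, by simpa using ha⟩
  exact ⟨a1, a2, h1, h2, h1', h2'.1, h2'.2⟩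

end H506R3.Lau
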