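import Pool.Agent.H506R3.Lau.L5
set_option autoImplicit false
set_option maxSynthPendingDepth 6
open Topology Filter
namespace H506R3.Lau

variable {E : V → ℝ} {x : V}

lemma sm_g2 (D : Dat E) (hx : x ≠ 0) : ContDiffAt ℝ 2 (g E) x :=
  (sm_g D hx).of_le (WithTop.coe_le_coe.2 (le_top : (2:ℕ∞) ≤ ⊤))
lemma sm_C2 (D : Dat E) (hx : x ≠ 0) : ContDiffAt ℝ 2 (C E) x :=
  (sm_C D hx).of_le (WithTop.coe_le_coe.2 (le_top : (2:ℕ∞) ≤ ⊤))

/-- normalisation -/
noncomputable def nrm (E : V → ℝ) (e : V → V) (y : V) : V := (Real.sqrt (g E y (e y) (e y)))⁻¹ • e y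

lemma sm_nrm (D : Dat E) (hx : x ≠ 0) {e : V → V} (he : ContDiffAt ℝ 2 e x) (h0 : e x ≠ 0) :
    ContDiffAt ℝ 2 (nrm E e) x := by
  have hp := D.pos x hx _ h0
  have h1 : ContDiffAt ℝ 2 (fun y => g E y (e y) (e y)) x := ((sm_g2 D hx).clm_apply he).clm_apply he
  have h2 := (h1.sqrt hp.ne').inv (Real.sqrt_pos.2 hp).ne'
  exact h2.smul he

lemma nrm_one (D : Dat E) {y : V} (hy : y ≠ 0) {e : V → V} (h0 : e y ≠ 0) : g E y (nrm E e y) (nrm E e y) = 1 := by
  have hp := D.pos y hy _ h0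
  have hs := Real.mul_self_sqrt hp.le
  have hs0 := (Real.sqrt_pos.2 hp).ne'
  simp only [nrm, map_smul, smul_apply, smul_eq_mul]
  field_simp
  rw [sq, hs]

lemma exists_orth (D : Dat E) (hx : x ≠ 0) : ∃ f1 f2 : V → V, ContDiffAt ℝ 2 f1 x ∧ ContDiffAt ℝ 2 f2 x ∧
    ∀ᶠ y in 𝓝 x, Orth E y (f1 y) (f2 y) := by
  obtain ⟨a1, a2, h1, h2, o1, o2, o3⟩ := exists_orth0 D hx
  have hr : ∀ y : V, y ≠ 0 → 0 < g E y y y := fun y hy => D.pos y hy y hy
  have hg := sm_g2 D hx
  have hid : ContDiffAt ℝ 2 (fun y : V => y) x := contDiffAt_id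
  have hyy : ContDiffAt ℝ 2 (fun y => g E y y y) x := (hg.clm_apply hid).clm_apply hid
  let p : V → V → V := fun a y => a - (g E y y a / g E y y y) • y
  have hp : ∀ a, ContDiffAt ℝ 2 (p a) x := by
    intro a
    exact contDiffAt_const.sub ((((hg.clm_apply hid).clm_apply contDiffAt_const).div hyy (hr x hx).ne').smul hid)
  have hpo : ∀ a y, y ≠ 0 → g E y y (p a y) = 0 := by
    intro a y hy
    have := (hr y hy).ne'
    simp only [p, map_sub, map_smul, smul_eq_mul]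
    field_simp
    ring
  have hpx1 : p a1 x = a1 := by simp [p, o1]
  have hpx2 : p a2 x = a2 := by simp [p, o2]
  let f1 : V → V := nrm E (p a1)
  have hf1 : ContDiffAt ℝ 2 f1 x := sm_nrm D hx (hp a1) (by rw [hpx1]; exact h1)
  let q : V → V := fun y => p a2 y - (g E y (p a2 y) (f1 y)) • f1 y
  have hq : ContDiffAt ℝ 2 q x := (hp a2).sub (((hg.clm_apply (hp a2)).clm_apply hf1).smul hf1)
  have hqx : q x = a2 := by
    have : g E x (p a2 x) (f1 x) = 0 := by
      simp only [f1, nrm, hpx1, hpx2, map_smul, smul_eq_mul]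
      rw [g_symm D hx a2 a1, o3, mul_zero]
    show p a2 x - (g E x (p a2 x) (f1 x)) • f1 x = a2
    rw [this, hpx2]; simp
  let f2 : V → V := nrm E q
  have hf2 : ContDiffAt ℝ 2 f2 x := sm_nrm D hx hq (by rw [hqx]; exact h2)
  refine ⟨f1, f2, hf1, hf2, ?_⟩
  have n1 : ∀ᶠ y in 𝓝 x, p a1 y ≠ 0 := (hp a1).continuousAt.eventually_ne (by rw [hpx1]; exact h1)
  have n2 : ∀ᶠ y in 𝓝 x, q y ≠ 0 := hq.continuousAt.eventually_ne (by rw [hqx]; exact h2)
  filter_upwards [n1, n2, ne_ev hx] with y m1 m2 hy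
  have t1 : g E y (f1 y) (f1 y) = 1 := nrm_one D hy m1
  have t2 : g E y (f2 y) (f2 y) = 1 := nrm_one D hy m2
  have r1 : g E y y (f1 y) = 0 := by
    simp only [f1, nrm, map_smul, smul_eq_mul]; rw [hpo a1 y hy, mul_zero]
  have rq : g E y y (q y) = 0 := by
    simp only [q, map_sub, map_smul, smul_eq_mul]; rw [hpo a2 y hy, r1]; ring
  have r2 : g E y y (f2 y) = 0 := by
    simp only [f2, nrm, map_smul, smul_eq_mul]; rw [rq, mul_zero]
  have fq : g E y (f1 y) (q y) = 0 := by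
    simp only [q, map_sub, map_smul, smul_eq_mul]; rw [t1, g_symm D hy (f1 y) (p a2 y)]; ring
  have t12 : g E y (f1 y) (f2 y) = 0 := by
    simp only [f2, nrm, map_smul, smul_eq_mul]
    have : g E y (f1 y) (q y) = 0 := fq
    rw [this, mul_zero]
  exact ⟨t1, t2, t12, r1, r2⟩

lemma Orth.swap (D : Dat E) {y a b : V} (hy : y ≠ 0) (h : Orth E y a b) : Orth E y b a :=
  ⟨h.n22, h.n11, by rw [g_symm D hy]; exact h.n12, h.r2, h.r1⟩

lemma adapt_of (D : Dat E) (F : Flat E) {y a b v : V} (hy : y ≠ 0) (h : Orth E y a b)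
    (h1 : C E y v a b = 0) (h2 : C E y v a a ≠ C E y v b b) : Adapt E y a b := by
  refine ⟨h, ?_⟩
  intro w
  have h3 := assoc F hy (h.on D hy) v w a b
  simp only [TT, bb, Matrix.cons_val_zero, Matrix.cons_val_one, Matrix.cons_val, map_smul, smul_eq_mul] at h3
  rw [g_sub_x D hy, g_sub_x D hy, g_sub_x D hy, C_s23 D hy v b a, C_s23 D hy w b a, h1] at h3
  have h4 : (C E y v a a - C E y v b b) * C E y w a b = 0 := by linarith
  rcases mul_eq_zero.1 h4 with h5 | h5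
  · exact absurd (by linarith) h2
  · exact h5

lemma rot (D : Dat E) (F : Flat E) (hx : x ≠ 0) (hC : C E x ≠ 0) {f1 f2 : V → V} (hf1 : ContDiffAt ℝ 2 f1 x)
    (hf2 : ContDiffAt ℝ 2 f2 x) (ho : ∀ᶠ y in 𝓝 x, Orth E y (f1 y) (f2 y)) (v : V)
    (hb : C E x v (f1 x) (f2 x) ≠ 0 ∨ C E x v (f2 x) (f2 x) < C E x v (f1 x) (f1 x)) :
    ∃ e1 e2 : V → V, Fr E x e1 e2 := by
  have hCs := sm_C2 D hx
  have hv : ContDiffAt ℝ 2 (fun _ : V => v) x := contDiffAt_const
  let a : V → ℝ := fun y => C E y v (f1 y) (f1 y)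
  let b : V → ℝ := fun y => C E y v (f1 y) (f2 y)
  let d : V → ℝ := fun y => C E y v (f2 y) (f2 y)
  have ha : ContDiffAt ℝ 2 a x := ((hCs.clm_apply hv).clm_apply hf1).clm_apply hf1
  have hbs : ContDiffAt ℝ 2 b x := ((hCs.clm_apply hv).clm_apply hf1).clm_apply hf2
  have hd : ContDiffAt ℝ 2 d x := ((hCs.clm_apply hv).clm_apply hf2).clm_apply hf2
  let q : V → ℝ := fun y => (a y - d y)^2 + 4 * b y^2
  have hq : ContDiffAt ℝ 2 q x := ((ha.sub hd).pow 2).add (contDiffAt_const.mul (hbs.pow 2))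
  have hb' : b x ≠ 0 ∨ d x < a x := hb
  have hqx : 0 < q x := by
    rcases hb' with h | h
    · have := sq_nonneg (a x - d x)
      have := (sq_pos_iff.2 h)
      simp only [q]; linarith
    · have := (sq_pos_iff.2 (sub_ne_zero.2 h.ne'))
      have := sq_nonneg (b x)
      simp only [q]; linarith
  let s : V → ℝ := fun y => (a y - d y) + Real.sqrt (q y)
  have hs : ContDiffAt ℝ 2 s x := (ha.sub hd).add (hq.sqrt hqx.ne')
  let m : V → ℝ := fun y => s y ^ 2 + 4 * b y ^ 2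
  have hm : ContDiffAt ℝ 2 m x := (hs.pow 2).add (contDiffAt_const.mul (hbs.pow 2))
  have hmx : 0 < m x := by
    rcases hb' with h | h
    · have := sq_nonneg (s x)
      have := (sq_pos_iff.2 h)
      simp only [m]; linarith
    · have h2 : 0 < s x := by
        have := Real.sqrt_nonneg (q x)
        simp only [s]; linarith
      have := pow_pos h2 2
      have := sq_nonneg (b x)
      simp only [m]; linarith
  let c : V → ℝ := fun y => s y / Real.sqrt (m y)
  let σ : V → ℝ := fun y => 2 * b y / Real.sqrt (m y)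
  have hsm := hm.sqrt hmx.ne'
  have hmx' := (Real.sqrt_pos.2 hmx).ne'
  have hc : ContDiffAt ℝ 2 c x := hs.div hsm hmx'
  have hσ : ContDiffAt ℝ 2 σ x := (contDiffAt_const.mul hbs).div hsm hmx'
  let e1 : V → V := fun y => c y • f1 y + σ y • f2 y
  let e2 : V → V := fun y => (- σ y) • f1 y + c y • f2 y
  have he1 : ContDiffAt ℝ 2 e1 x := (hc.smul hf1).add (hσ.smul hf2)
  have he2 : ContDiffAt ℝ 2 e2 x := ((hσ.neg).smul hf1).add (hc.smul hf2)
  refine ⟨e1, e2, hx, hC, he1, he2, ?_⟩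
  have ev1 : ∀ᶠ y in 𝓝 x, 0 < q y := hq.continuousAt.eventually_const_lt hqx
  have ev2 : ∀ᶠ y in 𝓝 x, 0 < m y := hm.continuousAt.eventually_const_lt hmx
  filter_upwards [ev1, ev2, ho, ne_ev hx] with y hqy hmy hoy hy
  have hsq : Real.sqrt (q y) * Real.sqrt (q y) = (a y - d y)^2 + 4 * b y^2 := Real.mul_self_sqrt hqy.le
  have hsp : 0 < Real.sqrt (q y) := Real.sqrt_pos.2 hqy
  have hmq : Real.sqrt (m y) * Real.sqrt (m y) = m y := Real.mul_self_sqrt hmy.le
  have hmp : 0 < Real.sqrt (m y) := Real.sqrt_pos.2 hmy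
  set Δ := Real.sqrt (q y) with hΔ
  set μ := Real.sqrt (m y) with hμ
  have hsy : s y = (a y - d y) + Δ := rfl
  have hmy' : m y = s y ^ 2 + 4 * b y ^ 2 := rfl
  have hcy : c y = s y / μ := rfl
  have hσy : σ y = 2 * b y / μ := rfl
  have hcs : c y ^ 2 + σ y ^ 2 = 1 := by
    rw [hcy, hσy, div_pow, div_pow, ← add_div]
    rw [show s y ^ 2 + (2 * b y)^2 = μ ^ 2 by rw [sq μ, hmq, hmy']; ring]
    exact div_self (pow_ne_zero 2 hmp.ne')
  have h21 : g E y (f2 y) (f1 y) = 0 := by rw [g_symm D hy]; exact hoy.n12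
  have horth : Orth E y (e1 y) (e2 y) := by
    refine ⟨?_, ?_, ?_, ?_, ?_⟩
    · simp only [e1, map_add, map_smul, add_apply, smul_apply, smul_eq_mul, hoy.n11, hoy.n22, hoy.n12, h21]
      linarith
    · simp only [e2, map_add, map_smul, add_apply, smul_apply, smul_eq_mul, hoy.n11, hoy.n22, hoy.n12, h21]
      linarith
    · simp only [e1, e2, map_add, map_smul, add_apply, smul_apply, smul_eq_mul, hoy.n11, hoy.n22, hoy.n12, h21]
      ring
    · simp only [e1, map_add, map_smul, add_apply, smul_apply, smul_eq_mul, hoy.r1, hoy.r2]; ring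
    · simp only [e2, map_add, map_smul, add_apply, smul_apply, smul_eq_mul, hoy.r1, hoy.r2]; ring
  have hbb : C E y v (f2 y) (f1 y) = b y := C_s23 D hy v (f2 y) (f1 y)
  have haa : C E y v (f1 y) (f1 y) = a y := rfl
  have hdd : C E y v (f2 y) (f2 y) = d y := rfl
  have hb1 : C E y v (f1 y) (f2 y) = b y := rfl
  have k1 : C E y v (e1 y) (e2 y) = 0 := by
    simp only [e1, e2, map_add, map_smul, add_apply, smul_apply, smul_eq_mul, haa, hb1, hbb, hdd]
    rw [hcy, hσy]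
    field_simp
    rw [hsy]
    linear_combination (b y) * hsq
  have k2 : C E y v (e1 y) (e1 y) - C E y v (e2 y) (e2 y) = Δ := by
    simp only [e1, e2, map_add, map_smul, add_apply, smul_apply, smul_eq_mul, haa, hb1, hbb, hdd]
    rw [hcy, hσy]
    have hμ2 : μ^2 = s y ^2 + 4 * b y^2 := by rw [sq, hmq, hmy']
    field_simp
    rw [hμ2, hsy]
    linear_combination (-(a y - d y) - Δ) * hsq
  refine adapt_of D F hy horth k1 ?_
  intro h
  rw [h] at k2; linarith

lemma exists_Fr (D : Dat E) (F : Flat E) (hx : x ≠ 0) (hC : C E x ≠ 0) : ∃ e1 e2 : V → V, Fr E x e1 e2 := by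
  obtain ⟨f1, f2, h1, h2, ho⟩ := exists_orth D hx
  have hox := ho.self_of_nhds
  by_cases hv : ∃ v, C E x v (f1 x) (f2 x) ≠ 0 ∨ C E x v (f1 x) (f1 x) ≠ C E x v (f2 x) (f2 x)
  · obtain ⟨v, hv⟩ := hv
    by_cases hb : C E x v (f1 x) (f2 x) ≠ 0
    · exact rot D F hx hC h1 h2 ho v (Or.inl hb)
    · have hne : C E x v (f1 x) (f1 x) ≠ C E x v (f2 x) (f2 x) := hv.resolve_left hb
      rcases lt_or_gt_of_ne hne with h | h
      · have ho' : ∀ᶠ y in 𝓝 x, Orth E y (f2 y) (f1 y) := by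
          filter_upwards [ho, ne_ev hx] with y hy hy0
          exact hy.swap D hy0
        exact rot D F hx hC h2 h1 ho' v (Or.inr h)
      · exact rot D F hx hC h1 h2 ho v (Or.inr h)
  · exfalso
    push Not at hv
    have had : Adapt E x (f1 x) (f2 x) := ⟨hox, fun w => (hv w).1⟩
    have hN := NN_pos D hx had hC
    have l1 : lam E x (f1 x) = 0 := by
      unfold lam
      rw [(hv (f1 x)).2, C_s12 D hx]
      exact (hv (f2 x)).1
    have l2 : lam E x (f2 x) = 0 := by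
      unfold lam
      rw [← (hv (f2 x)).2, C_s23 D hx, C_s12 D hx, C_s12 D hx, C_s12 D hx]
      rw [C_s23 D hx, C_s12 D hx]
      exact (hv (f1 x)).1
    unfold NN at hN
    rw [l1, l2] at hN; norm_num at hN

end H506R3.Lau
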