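import Pool.Agent.H506R3.Lau.L6
set_option autoImplicit false
set_option maxSynthPendingDepth 6
open Topology Filter MeasureTheory
namespace H506R3.Lau

variable {E : V → ℝ} {x : V}

lemma int_pd (f : V → ℝ) (hf : ContDiff ℝ 1 f) (hc : HasCompactSupport f) (v : V) :
    ∫ x, fderiv ℝ f x v = 0 := by
  have hd : Continuous (fun x => fderiv ℝ f x v) :=
    (hf.continuous_fderiv (by norm_num)).clm_apply continuous_const
  have hdc : HasCompactSupport (fun x => fderiv ℝ f x v) := hc.fderiv_apply (𝕜 := ℝ) v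
  have hdi : Integrable (fun x => fderiv ℝ f x v) := hd.integrable_of_hasCompactSupport hdc
  have hfi : Integrable f := hf.continuous.integrable_of_hasCompactSupport hc
  have h := integral_mul_fderiv_eq_neg_fderiv_mul_of_integrable (μ := (volume : Measure V))
    (f := fun _ : V => (1:ℝ)) (g := f) (v := v) (by simp) (by simpa using hdi) (by simpa using hfi)
    (fun _ _ => differentiableAt_const _) (fun x _ => (hf.differentiable (by norm_num)).differentiableAt)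
  simpa using h

lemma int_div (X : V → V) (hX : ContDiff ℝ 1 X) (hc : HasCompactSupport X) :
    ∫ x, ∑ i, (fderiv ℝ X x (ee i)) i = 0 ∧ Integrable (fun x => ∑ i, (fderiv ℝ X x (ee i)) i) := by
  have hXi : ∀ i, ContDiff ℝ 1 (fun x => X x i) := fun i => contDiff_pi.1 hX i
  have hci : ∀ i, HasCompactSupport (fun x => X x i) := fun i => hc.comp_left (g := fun z : V => z i) rfl
  have hder : ∀ i x v, (fderiv ℝ X x v) i = fderiv ℝ (fun y => X y i) x v := by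
    intro i x v
    have h1 : HasFDerivAt X (fderiv ℝ X x) x := (hX.differentiable (by norm_num)).differentiableAt.hasFDerivAt
    have h2 := (hasFDerivAt_pi'.1 h1) i
    rw [h2.fderiv]; rfl
  have hint : ∀ i, Integrable (fun x => fderiv ℝ (fun y => X y i) x (ee i)) := by
    intro i
    have hd : Continuous (fun x => fderiv ℝ (fun y => X y i) x (ee i)) :=
      ((hXi i).continuous_fderiv (by norm_num)).clm_apply continuous_const
    exact hd.integrable_of_hasCompactSupport ((hci i).fderiv_apply (𝕜 := ℝ) (ee i))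
  simp only [hder]
  constructor
  · rw [integral_finsetSum _ (fun i _ => hint i)]
    exact Finset.sum_eq_zero fun i _ => int_pd _ (hXi i) (hci i) _
  · exact integrable_finsetSum _ (fun i _ => hint i)

/-- two sided quadratic bounds for `E` -/
lemma E_bounds (D : Dat E) : ∃ m M : ℝ, 0 < m ∧ 0 < M ∧ ∀ x : V, x ≠ 0 → m * ‖x‖^2 ≤ E x ∧ E x ≤ M * ‖x‖^2 := by
  have hS : IsCompact (Metric.sphere (0:V) 1) := isCompact_sphere _ _
  have hne : (Metric.sphere (0:V) 1).Nonempty := NormedSpace.sphere_nonempty.2 zero_le_one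
  have hn0 : ∀ x ∈ Metric.sphere (0:V) 1, x ≠ 0 := by
    intro x hx h; rw [h] at hx; simp at hx
  have hcont : ContinuousOn E (Metric.sphere (0:V) 1) := fun x hx =>
    (D.smooth x (hn0 x hx)).continuousAt.continuousWithinAt
  have hEp : ∀ x : V, x ≠ 0 → 0 < E x := by
    intro x hx
    have := D.pos x hx x hx
    rw [g_xx D hx] at this; linarith
  obtain ⟨a, ha, ha'⟩ := hS.exists_isMinOn hne hcont
  obtain ⟨b, hb, hb'⟩ := hS.exists_isMaxOn hne hcont
  refine ⟨E a, E b, hEp a (hn0 a ha), hEp b (hn0 b hb), ?_⟩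
  intro x hx
  have hxn : 0 < ‖x‖ := norm_pos_iff.2 hx
  have h1 : x = ‖x‖ • (‖x‖⁻¹ • x) := by rw [smul_smul, mul_inv_cancel₀ hxn.ne', one_smul]
  have h2 : ‖x‖⁻¹ • x ∈ Metric.sphere (0:V) 1 := by
    simp [norm_smul, hxn.ne']
  have h3 : E x = ‖x‖^2 * E (‖x‖⁻¹ • x) := by
    conv_lhs => rw [h1]
    exact D.hom _ _ hxn
  have h4 := ha' h2
  have h5 := hb' h2
  simp only [Set.mem_setOf_eq] at h4 h5
  rw [h3]
  constructor
  · nlinarith [sq_nonneg ‖x‖]
  · nlinarith [sq_nonneg ‖x‖]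

/-- compact annulus -/
def Kan (r R : ℝ) : Set V := Metric.closedBall 0 R ∩ {x | r ≤ ‖x‖}

lemma Kan_compact (r R : ℝ) : IsCompact (Kan r R) :=
  (isCompact_closedBall (0:V) R).inter_right (isClosed_le continuous_const continuous_norm)

lemma Kan_ne {r R : ℝ} (hr : 0 < r) {x : V} (hx : x ∈ Kan r R) : x ≠ 0 := by
  intro h
  have h2 := hx.2
  simp only [Set.mem_setOf_eq] at h2
  rw [h] at h2; simp at h2; linarith

lemma g_lower (D : Dat E) {r R : ℝ} (hr : 0 < r) : ∃ c : ℝ, 0 < c ∧ ∀ x ∈ Kan r R, ∀ v : V, c * ‖v‖^2 ≤ g E x v v := by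
  by_cases hK : (Kan r R).Nonempty
  · have hS : IsCompact (Metric.sphere (0:V) 1) := isCompact_sphere _ _
    have hne : (Metric.sphere (0:V) 1).Nonempty := NormedSpace.sphere_nonempty.2 zero_le_one
    have hcont : ContinuousOn (fun p : V × V => g E p.1 p.2 p.2) (Kan r R ×ˢ Metric.sphere (0:V) 1) := by
      intro p hp
      have h1 : ContinuousAt (g E) p.1 := (sm_g D (Kan_ne hr hp.1)).continuousAt
      have h2 : ContinuousAt (fun p : V × V => g E p.1) p := ContinuousAt.comp h1 continuousAt_fst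
      exact ((h2.clm_apply continuousAt_snd).clm_apply continuousAt_snd).continuousWithinAt
    obtain ⟨a, ha, ha'⟩ := ((Kan_compact r R).prod hS).exists_isMinOn (hK.prod hne) hcont
    have hsn : ∀ x ∈ Metric.sphere (0:V) 1, x ≠ 0 := by
      intro x hx h; rw [h] at hx; simp at hx
    refine ⟨g E a.1 a.2 a.2, D.pos _ (Kan_ne hr ha.1) _ (hsn _ ha.2), ?_⟩
    intro x hx v
    by_cases hv : v = 0
    · simp [hv]
    have hvn : 0 < ‖v‖ := norm_pos_iff.2 hv
    have h2 : ‖v‖⁻¹ • v ∈ Metric.sphere (0:V) 1 := by simp [norm_smul, hvn.ne']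
    have h4 : g E a.1 a.2 a.2 ≤ g E x (‖v‖⁻¹ • v) (‖v‖⁻¹ • v) :=
      ha' (a := (x, ‖v‖⁻¹ • v)) ⟨hx, h2⟩
    have h5 : g E x v v = ‖v‖^2 * g E x (‖v‖⁻¹ • v) (‖v‖⁻¹ • v) := by
      simp only [map_smul, smul_apply, smul_eq_mul]
      field_simp
    rw [h5]
    nlinarith [sq_nonneg ‖v‖]
  · refine ⟨1, one_pos, fun x hx => absurd ⟨x, hx⟩ hK⟩

lemma Q_upper (D : Dat E) {r R : ℝ} (hr : 0 < r) : ∃ M : ℝ, 0 < M ∧ ∀ x ∈ Kan r R, ‖Q E x‖ ≤ M ∧ dn E x ≤ M := by
  have h1 : ContinuousOn (Q E) (Kan r R) := fun x hx => (sm_Q D (Kan_ne hr hx)).continuousAt.continuousWithinAt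
  have hdn : ContinuousOn (dn E) (Kan r R) := by
    intro x hx
    obtain ⟨f1, f2, _, _, ho⟩ := exists_orth D (Kan_ne hr hx)
    obtain ⟨L, h2, _⟩ := ho.self_of_nhds.dn D (Kan_ne hr hx)
    exact h2.continuousAt.continuousWithinAt
  obtain ⟨M1, hM1⟩ := (Kan_compact r R).exists_bound_of_continuousOn h1
  obtain ⟨M2, hM2⟩ := (Kan_compact r R).exists_bound_of_continuousOn hdn
  refine ⟨max 1 (max M1 M2), lt_of_lt_of_le one_pos (le_max_left _ _), ?_⟩
  intro x hx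
  refine ⟨(hM1 x hx).trans ((le_max_left _ _).trans (le_max_right _ _)), ?_⟩
  exact (le_abs_self _).trans ((hM2 x hx).trans ((le_max_right _ _).trans (le_max_right _ _)))

lemma YY_bound {c : ℝ} (hc : 0 < c) {e1 e2 : V} (h : Orth E x e1 e2)
    (hg : ∀ v : V, c * ‖v‖^2 ≤ g E x v v) : ‖YY E x e1 e2‖ ≤ 4 * (1/c)^2 * ‖C E x‖ := by
  have n1 : ‖e1‖^2 ≤ 1/c := by
    have := hg e1; rw [h.n11] at this
    rw [le_div_iff₀ hc]; linarith
  have n2 : ‖e2‖^2 ≤ 1/c := by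
    have := hg e2; rw [h.n22] at this
    rw [le_div_iff₀ hc]; linarith
  have hl : ∀ e : V, ‖e‖^2 ≤ 1/c → |lam E x e| ≤ ‖C E x‖ * ‖e‖ * (1/c) := by
    intro e he
    have h1 : ‖C E x e e e‖ ≤ ‖C E x‖ * ‖e‖ * ‖e‖ * ‖e‖ := by
      have a1 := (C E x).le_opNorm e
      have a2 := (C E x e).le_opNorm e
      have a3 := (C E x e e).le_opNorm e
      have hn := norm_nonneg e
      calc ‖C E x e e e‖ ≤ ‖C E x e e‖ * ‖e‖ := a3
        _ ≤ (‖C E x e‖ * ‖e‖) * ‖e‖ := by gcongr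
        _ ≤ ((‖C E x‖ * ‖e‖) * ‖e‖) * ‖e‖ := by gcongr
    rw [Real.norm_eq_abs] at h1
    have h2 : 0 ≤ ‖C E x‖ * ‖e‖ := by positivity
    calc |lam E x e| ≤ ‖C E x‖ * ‖e‖ * ‖e‖ * ‖e‖ := h1
      _ = ‖C E x‖ * ‖e‖ * ‖e‖^2 := by ring
      _ ≤ ‖C E x‖ * ‖e‖ * (1/c) := by gcongr
  have hat : |Real.arctan (bet E x e1 e2)| ≤ 2 := by
    have h1 := Real.arctan_lt_pi_div_two (bet E x e1 e2)
    have h2 := Real.neg_pi_div_two_lt_arctan (bet E x e1 e2)
    have h3 := Real.pi_lt_four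
    rw [abs_le]; constructor <;> linarith
  have h12 : ‖e1‖ * ‖e2‖ ≤ 1/c := by nlinarith [sq_nonneg (‖e1‖ - ‖e2‖)]
  have hc' : 0 < 1/c := by positivity
  have hW : ‖WW E x e1 e2‖ ≤ 2 * (1/c)^2 * ‖C E x‖ := by
    have b1 := hl e1 n1
    have b2 := hl e2 n2
    have hCn := norm_nonneg (C E x)
    calc ‖WW E x e1 e2‖ ≤ ‖lam E x e2 • e1‖ + ‖lam E x e1 • e2‖ := norm_add_le _ _
      _ = |lam E x e2| * ‖e1‖ + |lam E x e1| * ‖e2‖ := by rw [norm_smul, norm_smul]; rfl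
      _ ≤ (‖C E x‖ * ‖e2‖ * (1/c)) * ‖e1‖ + (‖C E x‖ * ‖e1‖ * (1/c)) * ‖e2‖ := by gcongr
      _ = 2 * ((1/c) * ‖C E x‖) * (‖e1‖ * ‖e2‖) := by ring
      _ ≤ 2 * ((1/c) * ‖C E x‖) * (1/c) := by gcongr
      _ = 2 * (1/c)^2 * ‖C E x‖ := by ring
  calc ‖YY E x e1 e2‖ = |Real.arctan (bet E x e1 e2)| * ‖WW E x e1 e2‖ := by
        rw [YY, norm_smul]; rfl
    _ ≤ 2 * (2 * (1/c)^2 * ‖C E x‖) := by gcongr
    _ = 4 * (1/c)^2 * ‖C E x‖ := by ring

end H506R3.Lau
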