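import Pool.Agent.H506R3.Lau.L7
set_option autoImplicit false
set_option maxSynthPendingDepth 6
open Topology Filter MeasureTheory
namespace H506R3.Lau

variable {E : V → ℝ} {x : V}

abbrev Z := V →L[ℝ] V →L[ℝ] V →L[ℝ] ℝ

open Classical in
noncomputable def Yg (E : V → ℝ) (x : V) : V :=
  if h : ∃ p : V × V, Adapt E x p.1 p.2 ∧ C E x ≠ 0 then YY E x h.choose.1 h.choose.2 else 0

lemma Yg_eq (D : Dat E) (hx : x ≠ 0) (hC : C E x ≠ 0) {a b : V} (h : Adapt E x a b) :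
    Yg E x = YY E x a b := by
  have hex : ∃ p : V × V, Adapt E x p.1 p.2 ∧ C E x ≠ 0 := ⟨(a,b), h, hC⟩
  rw [Yg, dif_pos hex]
  exact uniq D hx hC h hex.choose_spec.1

noncomputable def kap (E : V → ℝ) {c0 : ℝ} (ρ : ContDiffBump c0) (φ : ContDiffBump (0 : Z)) (ε : ℝ) (x : V) : ℝ :=
  ρ (g E x x x) * (1 - φ (ε⁻¹ • C E x))

variable {c0 : ℝ} {ρ : ContDiffBump c0} {φ : ContDiffBump (0 : Z)} {ε : ℝ}

lemma kap_nonneg : 0 ≤ kap E ρ φ ε x := mul_nonneg ρ.nonneg (sub_nonneg.2 φ.le_one)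

lemma sm_kap (D : Dat E) (hx : x ≠ 0) : ContDiffAt ℝ 1 (kap E ρ φ ε) x := by
  have hg : ContDiffAt ℝ 1 (g E) x := (sm_g D hx).of_le (WithTop.coe_le_coe.2 (le_top : (1:ℕ∞) ≤ ⊤))
  have hC : ContDiffAt ℝ 1 (C E) x := (sm_C D hx).of_le (WithTop.coe_le_coe.2 (le_top : (1:ℕ∞) ≤ ⊤))
  have hid : ContDiffAt ℝ 1 (fun y : V => y) x := contDiffAt_id
  have h1 : ContDiffAt ℝ 1 (fun y => g E y y y) x := (hg.clm_apply hid).clm_apply hid
  have hρc : ContDiff ℝ 1 (ρ : ℝ → ℝ) := ρ.contDiff (n := 1)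
  have hφc : ContDiff ℝ 1 (φ : Z → ℝ) := φ.contDiff (n := 1)
  have h2 : ContDiffAt ℝ 1 (fun y => ρ (g E y y y)) x :=
    ContDiffAt.comp (g := (ρ : ℝ → ℝ)) (f := fun y => g E y y y) x hρc.contDiffAt h1
  have h3 : ContDiffAt ℝ 1 (fun y => ε⁻¹ • C E y) x := hC.const_smul ε⁻¹
  have h4 : ContDiffAt ℝ 1 (fun y => φ (ε⁻¹ • C E y)) x :=
    ContDiffAt.comp (g := (φ : Z → ℝ)) (f := fun y => ε⁻¹ • C E y) x hφc.contDiffAt h3
  exact h2.mul (contDiffAt_const.sub h4)

lemma hd_kap (D : Dat E) (hx : x ≠ 0) : ∃ κ' : V →L[ℝ] ℝ, HasFDerivAt (kap E ρ φ ε) κ' x ∧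
    ∀ v, g E x x v = 0 → κ' v = - (ρ (g E x x x) * (fderiv ℝ φ (ε⁻¹ • C E x) (ε⁻¹ • Q E x v))) := by
  obtain ⟨L, h1, h2⟩ := hg2 D hx (hasFDerivAt_id x) (hasFDerivAt_id x)
  have hρ : HasFDerivAt (ρ : ℝ → ℝ) (fderiv ℝ ρ (g E x x x)) (g E x x x) :=
    ((ρ.contDiff (n := 1)).differentiable (by norm_num)).differentiableAt.hasFDerivAt
  have hφ : HasFDerivAt (φ : Z → ℝ) (fderiv ℝ φ (ε⁻¹ • C E x)) (ε⁻¹ • C E x) :=
    ((φ.contDiff (n := 1)).differentiable (by norm_num)).differentiableAt.hasFDerivAt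
  have h3 : HasFDerivAt (fun y => ε⁻¹ • C E y) (ε⁻¹ • Q E x) x := (hd_C D hx).const_smul ε⁻¹
  have h1' : HasFDerivAt (fun y => g E y y y) L x := h1
  have h4 := HasFDerivAt.comp (g := (ρ : ℝ → ℝ)) (f := fun y => g E y y y) x hρ h1'
  have h5 := HasFDerivAt.comp (g := (φ : Z → ℝ)) (f := fun y => ε⁻¹ • C E y) x hφ h3
  have h6 := h4.mul (h5.const_sub 1)
  refine ⟨_, h6, ?_⟩
  intro v hv
  have h7 : L v = 0 := by
    rw [h2]
    simp only [id, ContinuousLinearMap.id_apply]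
    rw [g_sub_x D hx, hv, g_symm D hx v x, hv]; ring
  simp [h7]

noncomputable def XX (E : V → ℝ) {c0 : ℝ} (ρ : ContDiffBump c0) (φ : ContDiffBump (0 : Z)) (ε : ℝ) (x : V) : V :=
  (dn E x * kap E ρ φ ε x) • Yg E x

noncomputable def DV (E : V → ℝ) {c0 : ℝ} (ρ : ContDiffBump c0) (φ : ContDiffBump (0 : Z)) (ε : ℝ) (x : V) : ℝ :=
  ∑ i, (fderiv ℝ (XX E ρ φ ε) x (ee i)) i

lemma XX_fr (D : Dat E) {e1 e2 : V → V} (h : Fr E x e1 e2) :
    XX E ρ φ ε =ᶠ[𝓝 x] (fun y => (dn E y * kap E ρ φ ε y) • YY E y (e1 y) (e2 y)) := by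
  filter_upwards [h.ev D] with y hy
  rw [XX, Yg_eq D hy.hx hy.hC hy.at]

lemma DV_fr (D : Dat E) {e1 e2 : V → V} (h : Fr E x e1 e2) {κ' : V →L[ℝ] ℝ} (hκ : HasFDerivAt (kap E ρ φ ε) κ' x) :
    DV E ρ φ ε x = dn E x * (κ' (YY E x (e1 x) (e2 x)) +
        kap E ρ φ ε x / (g E x x x * (1 + bet E x (e1 x) (e2 x) ^ 2))) := by
  obtain ⟨T, h1, h2⟩ := h.divX D hκ
  have h3 := h1.congr_of_eventuallyEq (XX_fr (ρ := ρ) (φ := φ) (ε := ε) D h)
  rw [DV, h3.fderiv, h2]

lemma DV_zero (h : XX E ρ φ ε =ᶠ[𝓝 x] (fun _ => 0)) : DV E ρ φ ε x = 0 := by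
  have h1 : HasFDerivAt (XX E ρ φ ε) (0 : V →L[ℝ] V) x := (hasFDerivAt_const 0 x).congr_of_eventuallyEq h
  rw [DV, h1.fderiv]; simp

lemma C_zero_case (D : Dat E) (hx : x ≠ 0) (hC : C E x = 0) (hφ : 0 < φ.rIn) :
    XX E ρ φ ε =ᶠ[𝓝 x] (fun _ => 0) := by
  have h1 : ContinuousAt (fun y => ε⁻¹ • C E y) x := (sm_C D hx).continuousAt.const_smul ε⁻¹
  have h2 : ∀ᶠ y in 𝓝 x, ε⁻¹ • C E y ∈ Metric.ball (0:Z) φ.rIn := by
    apply h1.eventually_mem
    rw [hC, smul_zero]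
    exact Metric.ball_mem_nhds _ hφ
  filter_upwards [h2] with y hy
  have h3 : φ (ε⁻¹ • C E y) = 1 := φ.one_of_mem_closedBall (Metric.ball_subset_closedBall hy)
  simp [XX, kap, h3]

lemma core (D : Dat E) (F : Flat E) {p : V} (hp : p ≠ 0) (hCp : C E p ≠ 0) : False := by
  set c0 := g E p p p with hc0
  have hc0p : 0 < c0 := D.pos p hp p hp
  let ρ : ContDiffBump c0 := ⟨c0/4, c0/2, by positivity, by linarith⟩
  let φ : ContDiffBump (0 : Z) := ⟨1, 2, one_pos, one_lt_two⟩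
  obtain ⟨m, M, hm, hM, hE⟩ := E_bounds D
  set r := Real.sqrt (c0 / (4 * M)) with hr
  set R := Real.sqrt (3 * c0 / (4 * m)) with hR
  have hrp : 0 < r := Real.sqrt_pos.2 (by positivity)
  have hsupp : ∀ x, ρ (g E x x x) ≠ 0 → x ∈ Kan r R := by
    intro x hx
    have h1 : g E x x x ∈ Metric.ball c0 (c0/2) := by
      have := (ρ.support_eq (E := ℝ))
      rw [← this]; exact hx
    rw [Metric.mem_ball, Real.dist_eq, abs_lt] at h1
    have hx0 : x ≠ 0 := by
      intro h; rw [h] at h1; simp at h1; linarith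
    rw [g_xx D hx0] at h1
    obtain ⟨b1, b2⟩ := hE x hx0
    constructor
    · rw [mem_closedBall_zero_iff]
      apply Real.le_sqrt_of_sq_le
      rw [le_div_iff₀ (by positivity)]
      nlinarith
    · show r ≤ ‖x‖
      apply Real.sqrt_le_iff.2
      refine ⟨norm_nonneg _, ?_⟩
      rw [div_le_iff₀ (by positivity)]
      nlinarith
  obtain ⟨c, hc, hgl⟩ := g_lower D (R := R) hrp
  obtain ⟨MQ, hMQ, hQu⟩ := Q_upper D (R := R) hrp
  obtain ⟨Mφ0, hMφ0⟩ : ∃ B, ∀ z : Z, ‖fderiv ℝ φ z‖ ≤ B := by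
    have h1 : Continuous (fderiv ℝ (φ : Z → ℝ)) := (φ.contDiff (n := 1)).continuous_fderiv (by norm_num)
    have h2 : HasCompactSupport (fderiv ℝ (φ : Z → ℝ)) := φ.hasCompactSupport.fderiv (𝕜 := ℝ)
    exact h2.exists_bound_of_continuous h1
  set Mφ := max Mφ0 0 with hMφ
  have hMφ' : ∀ z : Z, ‖fderiv ℝ φ z‖ ≤ Mφ := fun z => (hMφ0 z).trans (le_max_left _ _)
  have hMφn : 0 ≤ Mφ := le_max_right _ _
  set M1 := MQ * (Mφ * MQ * (4 * (1/c)^2) * 2) with hM1
  have hM1n : 0 ≤ M1 := by positivity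
  have hφz : ∀ z : Z, 2 < ‖z‖ → fderiv ℝ φ z = 0 ∧ φ z = 0 := by
    intro z hz
    constructor
    · have h1 : (φ : Z → ℝ) =ᶠ[𝓝 z] (fun _ => 0) := by
        have h2 : ∀ᶠ y in 𝓝 z, 2 < ‖y‖ := continuous_norm.continuousAt.eventually_const_lt hz
        filter_upwards [h2] with y hy
        apply φ.zero_of_le_dist
        rw [dist_zero_right]; exact hy.le
      rw [h1.fderiv_eq]; simp
    · apply φ.zero_of_le_dist
      rw [dist_zero_right]; exact hz.le
  have hz0 : ∀ ε : ℝ, XX E ρ φ ε =ᶠ[𝓝 0] (fun _ => 0) := by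
    intro ε
    have h1 : ∀ᶠ y : V in 𝓝 0, ‖y‖ < r := continuous_norm.continuousAt.eventually_lt_const (by simpa using hrp)
    filter_upwards [h1] with y hy
    have h2 : ρ (g E y y y) = 0 := by
      by_contra h
      exact absurd (hsupp y h).2 (not_le.2 hy)
    simp [XX, kap, h2]
  -- smoothness
  have hsm : ∀ ε : ℝ, ContDiff ℝ 1 (XX E ρ φ ε) := by
    intro ε
    rw [contDiff_iff_contDiffAt]
    intro x
    by_cases hx : x = 0
    · rw [hx]; exact contDiffAt_const.congr_of_eventuallyEq (hz0 ε)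
    by_cases hC : C E x = 0
    · exact contDiffAt_const.congr_of_eventuallyEq (C_zero_case D hx hC one_pos)
    · obtain ⟨e1, e2, h⟩ := exists_Fr D F hx hC
      exact (h.sm_X D (sm_kap D hx)).congr_of_eventuallyEq (XX_fr D h)
  have hcs : ∀ ε : ℝ, HasCompactSupport (XX E ρ φ ε) := by
    intro ε
    apply HasCompactSupport.of_support_subset_isCompact (Kan_compact r R)
    intro x hx
    apply hsupp
    intro h
    apply hx
    simp [XX, kap, h]
  -- the shells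
  let S : ℝ → Set V := fun ε => {x | x ∈ Kan r R ∧ 0 < ‖C E x‖ ∧ ‖C E x‖ ≤ 2 * ε}
  have hlow : ∀ ε : ℝ, 0 < ε → ∀ x, - (M1 * (S ε).indicator (fun _ => (1:ℝ)) x) ≤ DV E ρ φ ε x := by
    intro ε hε x
    have hind : 0 ≤ (S ε).indicator (fun _ => (1:ℝ)) x := Set.indicator_nonneg (fun _ _ => zero_le_one) _
    by_cases hx : x = 0
    · rw [hx, DV_zero (hz0 ε), ← hx]; have := mul_nonneg hM1n hind; linarith
    by_cases hC : C E x = 0
    · rw [DV_zero (C_zero_case D hx hC one_pos)]; have := mul_nonneg hM1n hind; linarith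
    obtain ⟨e1, e2, h⟩ := exists_Fr D F hx hC
    obtain ⟨κ', k1, k2⟩ := hd_kap (ρ := ρ) (φ := φ) (ε := ε) D hx
    rw [DV_fr D h k1]
    have hY0 : g E x x (YY E x (e1 x) (e2 x)) = 0 := by
      simp only [YY, WW, map_smul, map_add, h.at.r1, h.at.r2, smul_eq_mul]; ring
    rw [k2 _ hY0]
    have hkn := kap_nonneg (E := E) (ρ := ρ) (φ := φ) (ε := ε) (x := x)
    have hrr := r2pos D hx
    have hdn : 0 ≤ dn E x := Real.sqrt_nonneg _
    have hterm : 0 ≤ kap E ρ φ ε x / (g E x x x * (1 + bet E x (e1 x) (e2 x) ^ 2)) := by positivity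
    by_cases hρ : ρ (g E x x x) = 0
    · rw [hρ]
      have := mul_nonneg hM1n hind
      have h5 := mul_nonneg hdn hterm
      simp only [zero_mul, neg_zero, zero_add]
      linarith
    have hxK := hsupp x hρ
    by_cases hbig : 2 * ε < ‖C E x‖
    · have h6 : 2 < ‖ε⁻¹ • C E x‖ := by
        rw [norm_smul, Real.norm_eq_abs, abs_of_pos (inv_pos.2 hε)]
        rw [lt_inv_mul_iff₀ hε]; linarith
      rw [(hφz _ h6).1]
      have := mul_nonneg hM1n hind
      have h5 := mul_nonneg hdn hterm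
      simp only [zero_apply, mul_zero, neg_zero, zero_add]
      linarith
    · push Not at hbig
      have hxS : x ∈ S ε := ⟨hxK, norm_pos_iff.2 hC, hbig⟩
      rw [Set.indicator_of_mem hxS]
      have hQx := (hQu x hxK).1
      have hdx := (hQu x hxK).2
      have hYb := YY_bound hc h.at.toOrth (hgl x hxK)
      have hb1 : |fderiv ℝ φ (ε⁻¹ • C E x) (ε⁻¹ • Q E x (YY E x (e1 x) (e2 x)))| ≤ Mφ * MQ * (4 * (1/c)^2) * 2 := by
        have a1 := (fderiv ℝ φ (ε⁻¹ • C E x)).le_opNorm (ε⁻¹ • Q E x (YY E x (e1 x) (e2 x)))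
        have a2 := (Q E x).le_opNorm (YY E x (e1 x) (e2 x))
        have a3 : ‖ε⁻¹ • Q E x (YY E x (e1 x) (e2 x))‖ = ε⁻¹ * ‖Q E x (YY E x (e1 x) (e2 x))‖ := by
          rw [norm_smul, Real.norm_eq_abs, abs_of_pos (inv_pos.2 hε)]
        rw [a3] at a1
        have hεi : 0 < ε⁻¹ := inv_pos.2 hε
        calc |fderiv ℝ φ (ε⁻¹ • C E x) (ε⁻¹ • Q E x (YY E x (e1 x) (e2 x)))|
            ≤ ‖fderiv ℝ φ (ε⁻¹ • C E x)‖ * (ε⁻¹ * ‖Q E x (YY E x (e1 x) (e2 x))‖) := a1
          _ ≤ Mφ * (ε⁻¹ * (‖Q E x‖ * ‖YY E x (e1 x) (e2 x)‖)) := by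
              gcongr; exact hMφ' _
          _ ≤ Mφ * (ε⁻¹ * (MQ * (4 * (1/c)^2 * ‖C E x‖))) := by gcongr
          _ ≤ Mφ * (ε⁻¹ * (MQ * (4 * (1/c)^2 * (2 * ε)))) := by gcongr
          _ = Mφ * MQ * (4 * (1/c)^2) * 2 * (ε⁻¹ * ε) := by ring
          _ = Mφ * MQ * (4 * (1/c)^2) * 2 := by rw [inv_mul_cancel₀ hε.ne', mul_one]
      have hρ1 : ρ (g E x x x) ≤ 1 := ρ.le_one
      have hρ0 : 0 ≤ ρ (g E x x x) := ρ.nonneg
      set w := fderiv ℝ φ (ε⁻¹ • C E x) (ε⁻¹ • Q E x (YY E x (e1 x) (e2 x))) with hw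
      have hb2 : dn E x * (ρ (g E x x x) * w) ≤ M1 := by
        have h7 : ρ (g E x x x) * w ≤ Mφ * MQ * (4 * (1/c)^2) * 2 := by
          calc ρ (g E x x x) * w ≤ ρ (g E x x x) * |w| := by gcongr; exact le_abs_self _
            _ ≤ 1 * |w| := by gcongr
            _ ≤ _ := by rw [one_mul]; exact hb1
        calc dn E x * (ρ (g E x x x) * w) ≤ dn E x * (Mφ * MQ * (4 * (1/c)^2) * 2) := by gcongr
          _ ≤ MQ * (Mφ * MQ * (4 * (1/c)^2) * 2) := by gcongr
      have h8 := mul_nonneg hdn hterm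
      rw [mul_add]
      linarith
  -- near p
  obtain ⟨e1, e2, hF⟩ := exists_Fr D F hp hCp
  let hfun : V → ℝ := fun y => dn E y * (ρ (g E y y y) / (g E y y y * (1 + bet E y (e1 y) (e2 y) ^ 2)))
  have hdnp : 0 < dn E p := Real.sqrt_pos.2 (det_pos p (hF.at.toOrth.on D hp))
  have hρp : ρ (g E p p p) = 1 := ρ.one_of_mem_closedBall (by
    rw [← hc0]; exact Metric.mem_closedBall_self (by positivity))
  have hhp : 0 < hfun p := by
    have := r2pos D hp
    simp only [hfun, hρp]; positivity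
  have hcont : ContinuousAt hfun p := by
    obtain ⟨L, hL, _⟩ := hF.at.toOrth.dn D hp
    have q1 : ContinuousAt (fun y => g E y y y) p :=
      (((sm_g D hp).continuousAt).clm_apply continuousAt_id).clm_apply continuousAt_id
    have q2 : ContinuousAt (fun y => ρ (g E y y y)) p := ρ.continuous.continuousAt.comp q1
    have q3 : ContinuousAt (fun y => bet E y (e1 y) (e2 y)) p := (hF.sm_bet D).continuousAt
    refine hL.continuousAt.mul (q2.div (q1.mul (continuousAt_const.add (q3.pow 2))) ?_)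
    have := r2pos D hp
    positivity
  have hη : 0 < ‖C E p‖ / 2 := by have := norm_pos_iff.2 hCp; positivity
  have ev1 : ∀ᶠ y in 𝓝 p, hfun p / 2 < hfun y := hcont.eventually_const_lt (by linarith)
  have ev2 : ∀ᶠ y in 𝓝 p, ‖C E p‖ / 2 < ‖C E y‖ :=
    ((sm_C D hp).continuousAt.norm).eventually_const_lt (by have := norm_pos_iff.2 hCp; linarith)
  obtain ⟨δ, hδ, hball⟩ := Metric.eventually_nhds_iff_ball.1 ((ev1.and ev2).and (hF.ev D))
  have hnear : ∀ ε : ℝ, 0 < ε → ε < ‖C E p‖ / 4 → ∀ y ∈ Metric.ball p δ, hfun p / 2 ≤ DV E ρ φ ε y := by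
    intro ε hε hε2 y hy
    obtain ⟨⟨h1, h2⟩, h3⟩ := hball y hy
    obtain ⟨κ', k1, k2⟩ := hd_kap (ρ := ρ) (φ := φ) (ε := ε) D h3.hx
    rw [DV_fr D h3 k1]
    have hY0 : g E y y (YY E y (e1 y) (e2 y)) = 0 := by
      simp only [YY, WW, map_smul, map_add, h3.at.r1, h3.at.r2, smul_eq_mul]; ring
    have h6 : 2 < ‖ε⁻¹ • C E y‖ := by
      rw [norm_smul, Real.norm_eq_abs, abs_of_pos (inv_pos.2 hε)]
      rw [lt_inv_mul_iff₀ hε]; linarith
    rw [k2 _ hY0, (hφz _ h6).1, kap, (hφz _ h6).2]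
    simp only [zero_apply, mul_zero, neg_zero, zero_add, sub_zero, mul_one]
    exact h1.le
  -- integrate
  set c1 := hfun p / 2 with hc1
  have hc1p : 0 < c1 := by positivity
  have hSm : ∀ ε, MeasurableSet (S ε) := by
    intro ε
    have hCm : Measurable (C E) := measurable_fderiv ℝ (g E)
    have hn : Measurable (fun x => ‖C E x‖) := hCm.norm
    exact (Kan_compact r R).measurableSet.inter
      ((measurableSet_lt measurable_const hn).inter (measurableSet_le hn measurable_const))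
  have hSfin : ∀ ε, volume (S ε) ≠ ⊤ := by
    intro ε
    exact ((measure_mono (fun x hx => hx.1)).trans_lt (Kan_compact r R).measure_lt_top).ne
  have hmain : ∀ ε : ℝ, 0 < ε → ε < ‖C E p‖ / 4 →
      c1 * (volume (Metric.ball p δ)).toReal ≤ M1 * (volume (S ε)).toReal := by
    intro ε hε hε2
    obtain ⟨i1, i2⟩ := int_div _ (hsm ε) (hcs ε)
    have hBfin : volume (Metric.ball p δ) ≠ ⊤ := measure_ball_lt_top.ne
    have hpt : ∀ x, c1 * (Metric.ball p δ).indicator (fun _ => (1:ℝ)) x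
        - M1 * (S ε).indicator (fun _ => (1:ℝ)) x ≤ DV E ρ φ ε x := by
      intro x
      have hind : 0 ≤ (S ε).indicator (fun _ => (1:ℝ)) x := Set.indicator_nonneg (fun _ _ => zero_le_one) _
      have h9 := mul_nonneg hM1n hind
      by_cases hxB : x ∈ Metric.ball p δ
      · rw [Set.indicator_of_mem hxB]
        have := hnear ε hε hε2 x hxB
        linarith
      · rw [Set.indicator_of_notMem hxB]
        have := hlow ε hε x
        linarith
    have j1 : Integrable (fun x => (Metric.ball p δ).indicator (fun _ => (1:ℝ)) x) :=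
      (integrable_indicator_iff measurableSet_ball).2 (integrableOn_const hBfin)
    have j2 : Integrable (fun x => (S ε).indicator (fun _ => (1:ℝ)) x) :=
      (integrable_indicator_iff (hSm ε)).2 (integrableOn_const (hSfin ε))
    have j3 := integral_mono ((j1.const_mul c1).sub (j2.const_mul M1)) i2 hpt
    rw [i1] at j3
    have j4 : ∫ x, (Metric.ball p δ).indicator (fun _ => (1:ℝ)) x = (volume (Metric.ball p δ)).toReal := by
      rw [integral_indicator measurableSet_ball]; simp [Measure.real]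
    have j5 : ∫ x, (S ε).indicator (fun _ => (1:ℝ)) x = (volume (S ε)).toReal := by
      rw [integral_indicator (hSm ε)]; simp [Measure.real]
    have j6 : ∫ x, (c1 * (Metric.ball p δ).indicator (fun _ => (1:ℝ)) x
        - M1 * (S ε).indicator (fun _ => (1:ℝ)) x) = c1 * (volume (Metric.ball p δ)).toReal - M1 * (volume (S ε)).toReal := by
      rw [integral_sub (j1.const_mul c1) (j2.const_mul M1), integral_const_mul, integral_const_mul, j4, j5]
    have j7 : c1 * (volume (Metric.ball p δ)).toReal - M1 * (volume (S ε)).toReal ≤ 0 := by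
      rw [← j6]; exact j3
    linarith
  -- shells shrink
  let s : ℕ → Set V := fun n => S ((‖C E p‖ / 8) / (n + 1))
  have hanti : Antitone s := by
    intro a b hab x hx
    refine ⟨hx.1, hx.2.1, hx.2.2.trans ?_⟩
    have hab' : (a:ℝ) ≤ b := Nat.cast_le.2 hab
    have : 0 < ‖C E p‖ := norm_pos_iff.2 hCp
    gcongr
  have hinter : (⋂ n, s n) = ∅ := by
    rw [Set.eq_empty_iff_forall_notMem]
    intro x hx
    rw [Set.mem_iInter] at hx
    have h0 := (hx 0).2.1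
    have h1 : Tendsto (fun n : ℕ => 2 * ((‖C E p‖ / 8) / ((n:ℝ) + 1))) atTop (𝓝 (2 * 0)) := by
      apply Tendsto.const_mul
      exact tendsto_const_nhds.div_atTop (tendsto_atTop_add_const_right _ _ tendsto_natCast_atTop_atTop)
    have h2 : ‖C E x‖ ≤ 2 * 0 := ge_of_tendsto' h1 (fun n => (hx n).2.2)
    linarith
  have hlim : Tendsto (fun n => (volume (s n)).toReal) atTop (𝓝 0) := by
    have h1 := tendsto_measure_iInter_atTop (μ := (volume : Measure V)) (s := s)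
      (fun i => (hSm _).nullMeasurableSet) hanti ⟨0, hSfin _⟩
    rw [hinter, measure_empty] at h1
    have h2 := (ENNReal.tendsto_toReal ENNReal.zero_ne_top).comp h1
    simpa [Function.comp_def] using h2
  have hlim2 : Tendsto (fun n => M1 * (volume (s n)).toReal) atTop (𝓝 0) := by
    simpa using hlim.const_mul M1
  have hfinal : c1 * (volume (Metric.ball p δ)).toReal ≤ 0 := by
    apply ge_of_tendsto' hlim2
    intro n
    have hCpp : 0 < ‖C E p‖ := norm_pos_iff.2 hCp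
    have hn : (0:ℝ) ≤ n := Nat.cast_nonneg n
    apply hmain
    · positivity
    · rw [div_lt_iff₀ (by linarith)]
      nlinarith
  have hBpos : 0 < (volume (Metric.ball p δ)).toReal :=
    ENNReal.toReal_pos (Metric.measure_ball_pos volume p hδ).ne' measure_ball_lt_top.ne
  have := mul_pos hc1p hBpos
  linarith

end H506R3.Lau
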